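import Pool.Agent.H74.PZ.Pol
import Pool.Agent.H40.SLP.TrlB

/-!
# Row ZRT: polynomials along the base lines, Remez inequality in the time
-/

set_option autoImplicit false

namespace Pool.PZ.Zrt

open Finset MvPolynomial
open Pool.Agent.H49.Ent Pool.Agent.H32.Dense Pool.STK Pool.KA Pool.KSAT Pool.K2S Pool.PB
open Pool.PB.Trl Pool.FLF Pool.Agent.H39.BFL Pool.BFL

variable {m J : ℕ} {ζ : Type}

theorem pd_comm (i j : Fin m) (Q : MvPolynomial (Fin m) ℝ) :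
    pderiv i (pderiv j Q) = pderiv j (pderiv i Q) := by
  classical
  induction Q using MvPolynomial.induction_on with
  | C a => simp
  | add p q hp hq => simp only [map_add, hp, hq]
  | mul_X p k hp =>
    have hX : ∀ a b : Fin m, pderiv a (pderiv b (X k : MvPolynomial (Fin m) ℝ)) = 0 := by
      intro a b
      by_cases h : k = b
      · rw [h, pderiv_X_self, pderiv_one]
      · rw [pderiv_X_of_ne h, map_zero]
    simp only [pderiv_mul, map_add, hp, hX, mul_zero, add_zero]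
    ring

/-- The velocity of the base line. -/
noncomputable def vl (i₁ : Fin m) (d : Fin m → ℝ) (j : Fin m) : ℝ := Function.update d i₁ 1 j

/-- The derivative along the base line. -/
noncomputable def dd (i₁ : Fin m) (d : Fin m → ℝ) (Q : MvPolynomial (Fin m) ℝ) :
    MvPolynomial (Fin m) ℝ := ∑ j, C (vl i₁ d j) * pderiv j Q

theorem eval_dd (i₁ : Fin m) (d : Fin m → ℝ) (Q : MvPolynomial (Fin m) ℝ) (b : Fin m → ℝ) :
    eval b (dd i₁ d Q) = ∑ j, vl i₁ d j * eval b (pderiv j Q) := by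
  unfold dd
  rw [map_sum]
  refine Finset.sum_congr rfl fun j _ => ?_
  rw [map_mul, eval_C]

theorem eval_dd_dd (i₁ : Fin m) (d : Fin m → ℝ) (Q : MvPolynomial (Fin m) ℝ) (b : Fin m → ℝ) :
    eval b (dd i₁ d (dd i₁ d Q)) =
      ∑ i, vl i₁ d i * ∑ j, vl i₁ d j * eval b (pderiv i (pderiv j Q)) := by
  rw [eval_dd]
  refine Finset.sum_congr rfl fun i _ => ?_
  congr 1
  unfold dd
  rw [map_sum, map_sum]
  refine Finset.sum_congr rfl fun j _ => ?_
  rw [pderiv_C_mul, map_mul, eval_C]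

theorem totalDegree_dd {K : ℕ} (i₁ : Fin m) (d : Fin m → ℝ) {Q : MvPolynomial (Fin m) ℝ}
    (h : Q.totalDegree ≤ K) : (dd i₁ d Q).totalDegree ≤ K := by
  unfold dd
  refine (totalDegree_finsetSum _ _).trans (Finset.sup_le fun j _ => ?_)
  refine (totalDegree_mul _ _).trans ?_
  rw [totalDegree_C, zero_add]
  exact totalDegree_pd h j

/-- A polynomial on the base line, as a polynomial in the relative time. -/
noncomputable def ql (i₁ : Fin m) (w : ℕ) (s : ((Fin m → ℝ) × (Fin m → ℝ)) × ζ × ℕ)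
    (Q : MvPolynomial (Fin m) ℝ) : Polynomial ℝ :=
  aeval (fun j => if j = i₁ then
      (Polynomial.C ((s.2.2 : ℝ) / 2 ^ w) + Polynomial.C (1 / 2 ^ w) * Polynomial.X)
      else Polynomial.C (s.1.1 j) + Polynomial.C (s.1.2 j) *
        (Polynomial.C ((s.2.2 : ℝ) / 2 ^ w) + Polynomial.C (1 / 2 ^ w) * Polynomial.X)) Q

theorem natDegree_ql {K : ℕ} (i₁ : Fin m) (w : ℕ) (s : ((Fin m → ℝ) × (Fin m → ℝ)) × ζ × ℕ)
    {Q : MvPolynomial (Fin m) ℝ} (h : Q.totalDegree ≤ K) : (ql i₁ w s Q).natDegree ≤ K := by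
  have h1 : (Polynomial.C ((s.2.2 : ℝ) / 2 ^ w) +
      Polynomial.C (1 / 2 ^ w) * Polynomial.X : Polynomial ℝ).natDegree ≤ 1 := by
    refine (Polynomial.natDegree_add_le _ _).trans (max_le ?_ ?_)
    · rw [Polynomial.natDegree_C]
      exact Nat.zero_le _
    · exact (Polynomial.natDegree_C_mul_le _ _).trans Polynomial.natDegree_X_le
  unfold ql
  refine Pool.KBX.natDegree_aeval_le _ _ (fun j => ?_) h
  split_ifs
  · exact h1
  · refine (Polynomial.natDegree_add_le _ _).trans (max_le ?_ ?_)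
    · rw [Polynomial.natDegree_C]
      exact Nat.zero_le _
    · exact (Polynomial.natDegree_C_mul_le _ _).trans h1

theorem eval_ql (i₁ : Fin m) (w : ℕ) (s : ((Fin m → ℝ) × (Fin m → ℝ)) × ζ × ℕ)
    (Q : MvPolynomial (Fin m) ℝ) (τ : ℝ) :
    (ql i₁ w s Q).eval τ = eval (bl i₁ s (((s.2.2 : ℝ) + τ) / 2 ^ w)) Q := by
  have h1 : (Polynomial.C ((s.2.2 : ℝ) / 2 ^ w) +
      Polynomial.C (1 / 2 ^ w) * Polynomial.X : Polynomial ℝ).eval τ =
      ((s.2.2 : ℝ) + τ) / 2 ^ w := by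
    simp only [Polynomial.eval_add, Polynomial.eval_mul, Polynomial.eval_C, Polynomial.eval_X]
    ring
  unfold ql
  rw [Pool.KBX.eval_aeval_poly]
  congr 1
  congr 1
  funext j
  unfold bl
  split_ifs
  · exact h1
  · rw [Polynomial.eval_add, Polynomial.eval_mul, h1, Polynomial.eval_C, Polynomial.eval_C]

/-- At the sample. -/
theorem eval_ql_rt (F : Fam m J) (i₁ : Fin m) {w : ℕ} (hw : w ≤ J) (ω : F.Ω)
    (Q : MvPolynomial (Fin m) ℝ) :
    (ql i₁ w (slam F w ω) Q).eval (rt F w ω) = eval (bp F i₁ ω) Q := by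
  rw [eval_ql, ← t_rt F hw ω, bl_bp]

theorem der_ql (i₁ : Fin m) (w : ℕ) (s : ((Fin m → ℝ) × (Fin m → ℝ)) × ζ × ℕ)
    (Q : MvPolynomial (Fin m) ℝ) :
    Polynomial.derivative (ql i₁ w s Q) =
      Polynomial.C (1 / 2 ^ w) * ql i₁ w s (dd i₁ s.1.2 Q) := by
  unfold ql dd
  rw [der_aeval, map_sum, Finset.mul_sum]
  refine Finset.sum_congr rfl fun j _ => ?_
  rw [map_mul, aeval_C]
  have h0 : (algebraMap ℝ (Polynomial ℝ)) (vl i₁ s.1.2 j) = Polynomial.C (vl i₁ s.1.2 j) := rfl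
  rw [h0]
  unfold vl
  by_cases h : j = i₁
  · rw [if_pos h, h, Function.update_self]
    simp only [Polynomial.derivative_add, Polynomial.derivative_C, Polynomial.derivative_C_mul,
      Polynomial.derivative_X, map_one]
    ring
  · rw [if_neg h, Function.update_of_ne h]
    simp only [Polynomial.derivative_add, Polynomial.derivative_C, Polynomial.derivative_C_mul,
      Polynomial.derivative_X]
    ring

theorem qs_eq (i₁ : Fin m) (w : ℕ)
    (H : ((Fin m → ℝ) × (Fin m → ℝ)) × ζ × ℕ → MvPolynomial (Fin m) ℝ)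
    (s : ((Fin m → ℝ) × (Fin m → ℝ)) × ζ × ℕ) :
    qs i₁ w H s = Polynomial.C (s.1.1 i₁) + Polynomial.C (s.1.2 i₁) *
    (Polynomial.C ((s.2.2 : ℝ) / 2 ^ w) + Polynomial.C (1 / 2 ^ w) * Polynomial.X) -
    ql i₁ w s (H s) := rfl

theorem der_qs (i₁ : Fin m) (w : ℕ)
    (H : ((Fin m → ℝ) × (Fin m → ℝ)) × ζ × ℕ → MvPolynomial (Fin m) ℝ)
    (s : ((Fin m → ℝ) × (Fin m → ℝ)) × ζ × ℕ) :
    Polynomial.derivative (qs i₁ w H s) = Polynomial.C (1 / 2 ^ w) *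
      (Polynomial.C (s.1.2 i₁) - ql i₁ w s (dd i₁ s.1.2 (H s))) := by
  rw [qs_eq, Polynomial.derivative_sub, der_ql]
  simp only [Polynomial.derivative_add, Polynomial.derivative_C, Polynomial.derivative_C_mul,
    Polynomial.derivative_X]
  ring

theorem der_der_qs (i₁ : Fin m) (w : ℕ)
    (H : ((Fin m → ℝ) × (Fin m → ℝ)) × ζ × ℕ → MvPolynomial (Fin m) ℝ)
    (s : ((Fin m → ℝ) × (Fin m → ℝ)) × ζ × ℕ) :
    Polynomial.derivative (Polynomial.derivative (qs i₁ w H s)) =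
      -(Polynomial.C (1 / 2 ^ w * (1 / 2 ^ w)) *
        ql i₁ w s (dd i₁ s.1.2 (dd i₁ s.1.2 (H s)))) := by
  rw [der_qs, Polynomial.derivative_C_mul, Polynomial.derivative_sub, Polynomial.derivative_C,
    der_ql, Polynomial.C_mul]
  ring

/-! ### Comparison of the derivatives -/

/-- The derivatives of the line polynomial at the sample and of the point polynomial at a point
near the sample. -/
theorem cmp_der (m K : ℕ) : ∃ C : ℝ, 1 ≤ C ∧ ∀ (g h : MvPolynomial (Fin m) ℝ)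
    (b b' : Fin m → ℝ) (w : ℕ) (B E e : ℝ), g.totalDegree ≤ K → h.totalDegree ≤ K →
    (∀ c : Fin m → ℝ, (∀ j, |c j - b j| ≤ 1 / 2 ^ w) →
      (∀ j, |eval c (pderiv j g)| ≤ B) ∧ |eval c g - eval c h| ≤ E) →
    0 < e → e ≤ 1 / 2 ^ w → (∀ j, |b' j - b j| ≤ e) →
    (∀ j, |eval b (pderiv j h) - eval b' (pderiv j g)| ≤ C * 2 ^ w * (E + B * e)) ∧
    ∀ i j, |eval b (pderiv i (pderiv j h)) - eval b' (pderiv i (pderiv j g))| ≤
      C * 4 ^ w * (E + B * e) := by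
  obtain ⟨C₀, hC₀, hmk⟩ := box_markov m K
  obtain ⟨C₁, hC₁, hlip⟩ := Pool.Agent.H40.SLP.ball_lip m K
  have hCC : 1 ≤ C₀ * C₁ := one_le_mul_of_one_le_of_one_le hC₀ hC₁
  have hC00 : 1 ≤ C₀ * C₀ := one_le_mul_of_one_le_of_one_le hC₀ hC₀
  refine ⟨C₀ * C₀ * C₁, one_le_mul_of_one_le_of_one_le hC00 hC₁, ?_⟩
  intro g h b b' w B E e hg hh hgh he hew hb'
  have hw0 : (0 : ℝ) < 1 / 2 ^ w := by positivity
  have h2w : (0 : ℝ) < 2 ^ w := by positivity
  have hself : ∀ j, |b j - b j| ≤ 1 / (2 : ℝ) ^ w := fun j => by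
    rw [sub_self, abs_zero]; exact hw0.le
  have hE0 : 0 ≤ E := le_trans (abs_nonneg _) (hgh b hself).2
  -- first derivatives
  have hd : (h - g).totalDegree ≤ K := (totalDegree_sub _ _).trans (max_le hh hg)
  have m1 := hmk (h - g) b (1 / 2 ^ w) E hd hw0 (fun y hy => by
    rw [map_sub, abs_sub_comm]
    exact (hgh y hy).2)
  have hl1 : ∀ j, |eval b' (pderiv j g) - eval b (pderiv j g)| ≤ C₁ * B * (e / (1 / 2 ^ w)) :=
    fun j => hlip (pderiv j g) b b' (1 / 2 ^ w) e B (totalDegree_pd hg j) he hew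
      (fun y hy => (hgh y hy).1 j) hb'
  -- second derivatives
  have m2 : ∀ j, ∀ y : Fin m → ℝ, (∀ i, |y i - b i| ≤ 1 / 2 ^ w) → ∀ i,
      |eval y (pderiv i (pderiv j (h - g)))| ≤ C₀ * (C₀ * E / (1 / 2 ^ w)) / (1 / 2 ^ w) :=
    fun j => hmk (pderiv j (h - g)) b (1 / 2 ^ w) (C₀ * E / (1 / 2 ^ w)) (totalDegree_pd hd j)
      hw0 (fun y hy => m1 y hy j)
  have m3 : ∀ j, ∀ y : Fin m → ℝ, (∀ i, |y i - b i| ≤ 1 / 2 ^ w) → ∀ i,
      |eval y (pderiv i (pderiv j g))| ≤ C₀ * B / (1 / 2 ^ w) :=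
    fun j => hmk (pderiv j g) b (1 / 2 ^ w) B (totalDegree_pd hg j) hw0
      (fun y hy => (hgh y hy).1 j)
  have hl2 : ∀ i j, |eval b' (pderiv i (pderiv j g)) - eval b (pderiv i (pderiv j g))| ≤
      C₁ * (C₀ * B / (1 / 2 ^ w)) * (e / (1 / 2 ^ w)) :=
    fun i j => hlip (pderiv i (pderiv j g)) b b' (1 / 2 ^ w) e _
      (totalDegree_pd (totalDegree_pd hg j) i) he hew (fun y hy => m3 j y hy i) hb'
  have h4 : (4 : ℝ) ^ w = 2 ^ w * 2 ^ w := by
    rw [← mul_pow]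
    norm_num
  constructor
  · intro j
    have hB0 : 0 ≤ B := le_trans (abs_nonneg _) ((hgh b hself).1 j)
    have a1 := m1 b hself j
    have a2 := hl1 j
    rw [map_sub, map_sub] at a1
    have e1 : C₀ * E / (1 / 2 ^ w) = C₀ * (2 ^ w * E) := by field_simp
    have e2 : C₁ * B * (e / (1 / 2 ^ w)) = C₁ * (2 ^ w * (B * e)) := by field_simp
    rw [e1] at a1
    rw [e2] at a2
    have e3 : C₀ * C₀ * C₁ * 2 ^ w * (E + B * e) = C₀ * C₀ * C₁ * (2 ^ w * E) +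
      C₀ * C₀ * C₁ * (2 ^ w * (B * e)) := by ring
    have e4 : C₀ * (2 ^ w * E) ≤ C₀ * C₀ * C₁ * (2 ^ w * E) := by
      refine mul_le_mul_of_nonneg_right ?_ (by positivity)
      nlinarith
    have e5 : C₁ * (2 ^ w * (B * e)) ≤ C₀ * C₀ * C₁ * (2 ^ w * (B * e)) := by
      refine mul_le_mul_of_nonneg_right ?_ (by positivity)
      nlinarith
    rw [e3]
    rw [abs_le] at a1 a2 ⊢
    constructor <;> linarith [a1.1, a1.2, a2.1, a2.2]
  · intro i j
    have hB0 : 0 ≤ B := le_trans (abs_nonneg _) ((hgh b hself).1 j)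
    have a1 := m2 j b hself i
    have a2 := hl2 i j
    rw [map_sub, map_sub, map_sub] at a1
    have e1 : C₀ * (C₀ * E / (1 / 2 ^ w)) / (1 / 2 ^ w) = C₀ * C₀ * (4 ^ w * E) := by
      rw [h4]
      field_simp
    have e2 : C₁ * (C₀ * B / (1 / 2 ^ w)) * (e / (1 / 2 ^ w)) = C₀ * C₁ * (4 ^ w * (B * e)) := by
      rw [h4]
      field_simp
    rw [e1] at a1
    rw [e2] at a2
    have e3 : C₀ * C₀ * C₁ * 4 ^ w * (E + B * e) = C₀ * C₀ * C₁ * (4 ^ w * E) +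
      C₀ * C₀ * C₁ * (4 ^ w * (B * e)) := by ring
    have e4 : C₀ * C₀ * (4 ^ w * E) ≤ C₀ * C₀ * C₁ * (4 ^ w * E) := by
      refine mul_le_mul_of_nonneg_right ?_ (by positivity)
      nlinarith
    have e5 : C₀ * C₁ * (4 ^ w * (B * e)) ≤ C₀ * C₀ * C₁ * (4 ^ w * (B * e)) := by
      refine mul_le_mul_of_nonneg_right ?_ (by positivity)
      nlinarith
    rw [e3]
    rw [abs_le] at a1 a2 ⊢
    constructor <;> linarith [a1.1, a1.2, a2.1, a2.2]

/-! ### Remez inequality in the time -/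

/-- **Remez inequality in the time**, on an event, for polynomials which are functions of the
window. -/
theorem rem_ev (K : ℕ) : ∃ C₁ : ℝ, 1 ≤ C₁ ∧ ∀ (J : ℕ) (F : Fam m J)
    (A : F.Ω → Prop) (hA : 0 < Pe F.p A) (w : ℕ)
    (q : ((Fin m → ℝ) × (Fin m → ℝ)) × F.ζ × ℕ → Polynomial ℝ) (S₀ θ : ℝ),
    w ≤ J → (∀ s, (q s).natDegree ≤ K) → 0 < S₀ → 0 ≤ θ → (Fam.sub F A hA).Tm θ →
    C₁ * (θ + 1) ≤ ((J : ℝ) - w) * Real.log 2 →
    (∀ ω, A ω → |(q (slam F w ω)).eval (rt F w ω)| ≤ S₀) →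
    ∃ B : F.Ω → Prop, Sub B A ∧ Pe F.p A / 2 ≤ Pe F.p B ∧ ∀ ω, B ω →
      ∀ τ ∈ Set.Icc (0 : ℝ) 1,
        |(q (slam F w ω)).eval τ| ≤ Real.exp (C₁ * (θ + 1)) * S₀ := by
  classical
  obtain ⟨C₁, hC₁, hrem⟩ := Pool.BFL.Rem.rem_thm K
  refine ⟨C₁ * 2, by linarith, ?_⟩
  intro J F A hA w q S₀ θ hw hqd hS₀ hθ hTm hN hAH
  have hq := (Fam.sub F A hA).isLaw
  have hM : C₁ * (θ + 1) / (1 / 2) = C₁ * 2 * (θ + 1) := by ring
  have hwt := Pool.Agent.H40.BFL.window_time hq (Fam.sub F A hA).T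
    (fun ω => ((Fam.sub F A hA).l ω, (Fam.sub F A hA).Z ω)) J w hw (Fam.sub F A hA).tim θ hTm
  have hCH : Real.log ((2 ^ (J - w) : ℕ) : ℝ) - θ ≤
      CH (Fam.sub F A hA).p (fun ω => (Fam.sub F A hA).T ω % 2 ^ (J - w))
        (slam (Fam.sub F A hA) w) := by
    rw [Nat.cast_pow, Real.log_pow, Nat.cast_ofNat, Nat.cast_sub hw]
    refine hwt.trans (le_of_eq ?_)
    refine CH_congr hq.nonneg (fun ω ω' _ _ h => (Prod.ext_iff.mp h).1)
      (fun ω ω' _ _ h => (Prod.ext_iff.mp h).1) ?_ ?_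
    · intro ω ω' _ _ h
      simp only [Prod.mk.injEq] at h
      obtain ⟨⟨h1, h2⟩, h3⟩ := h
      unfold slam
      exact Prod.ext h1 (Prod.ext h2 h3)
    · intro ω ω' _ _ h
      have h1 : (Fam.sub F A hA).l ω = (Fam.sub F A hA).l ω' := congrArg (fun s => s.1) h
      have h2 : (Fam.sub F A hA).Z ω = (Fam.sub F A hA).Z ω' := congrArg (fun s => s.2.1) h
      have h3 : (Fam.sub F A hA).T1 w ω = (Fam.sub F A hA).T1 w ω' :=
        congrArg (fun s => s.2.2) h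
      exact Prod.ext (Prod.ext h1 h2) h3
  have hP0 : Pb (Fam.sub F A hA).p (fun _ => ¬ True) ≤ (1 / 2) / 4 := by
    unfold Pb
    simp only [not_true, if_false, Finset.sum_const_zero]
    norm_num
  have h1 := hrem (Fam.sub F A hA).Ω _ (Fam.sub F A hA).p (2 ^ (J - w))
    (fun ω => (Fam.sub F A hA).T ω % 2 ^ (J - w)) (slam (Fam.sub F A hA) w)
    q (fun _ => True) (fun _ => S₀) θ (1 / 2) hq
    (fun ω => Nat.mod_lt _ (by positivity)) hqd hθ
    (by norm_num) (by norm_num) hCH hP0 (fun _ => hS₀) (by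
      rw [Nat.cast_pow, Real.log_pow, Nat.cast_ofNat, Nat.cast_sub hw, hM]
      exact hN) (by
      intro ω _
      exact hAH ω.1 ω.2)
  rw [hM] at h1
  obtain ⟨E, hE⟩ : ∃ E : {ω // A ω} → Prop, E = fun ω => ∀ τ ∈ Set.Icc (0 : ℝ) 1,
      |(q (slam F w ω.1)).eval τ| ≤ Real.exp (C₁ * 2 * (θ + 1)) * S₀ := ⟨_, rfl⟩
  have h2 : Pb (Fam.sub F A hA).p (fun ω => ¬ E ω) ≤ 1 / 2 := by
    rw [hE]
    exact h1
  have h3 : Pe (Fam.sub F A hA).p E = 1 - Pb (Fam.sub F A hA).p (fun ω => ¬ E ω) :=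
    Pe_compl hq E
  refine ⟨fun ω => ∃ h : A ω, E ⟨ω, h⟩, fun ω hω => hω.1, ?_, fun ω hω => ?_⟩
  · have h5 : Pe F.p (fun ω => ∃ h : A ω, E ⟨ω, h⟩) = Pe F.p A * Pe (Fam.sub F A hA).p E :=
      sub_Pe hA E
    rw [h5, h3]
    nlinarith
  · obtain ⟨h, hω⟩ := hω
    rw [hE] at hω
    exact hω

end Pool.PZ.Zrt
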