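import Pool.Agent.H74.PZ.Core

/-!
# Row ZRT: leaves and spread fans without tilt: the slope is a function of the windows
-/

set_option autoImplicit false

namespace Pool.PZ.Zrt

open Finset MvPolynomial
open Pool.Agent.H49.Ent Pool.Agent.H32.Dense Pool.STK Pool.KA Pool.KSAT Pool.K2S Pool.PB
open Pool.PB.Trl Pool.FLF Pool.Agent.H39.BFL Pool.BFL

/-! ### Monotonicity -/

theorem grp_mono {m : ℕ} {Ω U : Type} {i : Fin m} {K ρ ρ' : ℝ} {pt : Ω → U}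
    {d : Ω → Fin m → ℝ} {B : Ω → Prop} (h : ρ ≤ ρ') (hG : GrP i K ρ pt d B) :
    GrP i K ρ' pt d B := by
  obtain ⟨n, s, hn⟩ := hG
  exact ⟨n, s, fun ω hω => ⟨(hn ω hω).1, (hn ω hω).2.1, (hn ω hω).2.2.trans h⟩⟩

theorem tilt_mono {m : ℕ} {Ω U : Type} {i₀ iu iN : Fin m} {K γ ρ ρ' : ℝ} {pt : Ω → U}
    {d : Ω → Fin m → ℝ} {B : Ω → Prop} (h : ρ ≤ ρ') (hG : TiltP i₀ iu iN K γ ρ pt d B) :
    TiltP i₀ iu iN K γ ρ' pt d B := by
  obtain ⟨n, s, t, hn⟩ := hG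
  exact ⟨n, s, t, fun ω hω => ⟨(hn ω hω).1, (hn ω hω).2.1, (hn ω hω).2.2.1,
    (hn ω hω).2.2.2.trans h⟩⟩

theorem rot_mono {m J : ℕ} {F : Fam m J} {i₀ iu : Fin m} {K μ μ' : ℝ} {w w' : ℕ}
    {B : F.Ω → Prop} (h : μ ≤ μ') (hw : w ≤ w') (hw' : w' ≤ J)
    (hR : RotP i₀ iu K μ (Fam.pt F) (slam F w) F.d B) :
    RotP i₀ iu K μ' (Fam.pt F) (slam F w') F.d B := by
  obtain ⟨n, s, ζ, hn⟩ := hR
  refine ⟨n, s, fun v => ζ (v.1, v.2.1, v.2.2 / 2 ^ (w' - w)), fun ω hω => ?_⟩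
  obtain ⟨h1, h2, h3⟩ := hn ω hω
  rw [slam_coarse F hw hw' ω] at h3
  exact ⟨h1, h2.trans h, h3.trans h⟩

/-! ### Powers of two -/

theorem rp_pow (a : ℝ) (n : ℕ) : ((2 : ℝ) ^ a) ^ n = (2 : ℝ) ^ (n * a) := by
  rw [← Real.rpow_natCast, ← Real.rpow_mul (by norm_num)]
  congr 1
  ring

theorem inv_floor {a : ℝ} (ha : 0 ≤ a) : (2 : ℝ) ^ (-a) ≤ 1 / 2 ^ ⌊a⌋₊ := by
  rw [Real.rpow_neg (by norm_num), ← one_div]
  refine one_div_le_one_div_of_le (by positivity) ?_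
  rw [← Real.rpow_natCast]
  exact Real.rpow_le_rpow_of_exponent_le (by norm_num) (Nat.floor_le ha)

theorem floor_inv {a : ℝ} : 1 / (2 : ℝ) ^ ⌊a⌋₊ ≤ 2 * (2 : ℝ) ^ (-a) := by
  have h1 : a < ⌊a⌋₊ + 1 := Nat.lt_floor_add_one a
  have h2 : (2 : ℝ) ^ a ≤ 2 ^ ⌊a⌋₊ * 2 := by
    have h3 : (2 : ℝ) ^ ⌊a⌋₊ * 2 = (2 : ℝ) ^ ((⌊a⌋₊ : ℝ) + 1) := by
      rw [Real.rpow_add (by norm_num), Real.rpow_natCast, Real.rpow_one]
    rw [h3]
    exact Real.rpow_le_rpow_of_exponent_le (by norm_num) h1.le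
  have h4 : (0 : ℝ) < (2 : ℝ) ^ a := Real.rpow_pos_of_pos (by norm_num) a
  rw [Real.rpow_neg (by norm_num), div_le_iff₀ (by positivity)]
  have h5 : 2 * ((2 : ℝ) ^ a)⁻¹ * 2 ^ ⌊a⌋₊ = (2 ^ ⌊a⌋₊ * 2) / (2 : ℝ) ^ a := by
    field_simp
  rw [h5, le_div_iff₀ h4, one_mul]
  exact h2

theorem exp_64 {a : ℝ} (h : 64 ≤ a) : Real.exp (-a) ≤ 1 / 64 := by
  have h1 := Real.add_one_le_exp a
  rw [Real.exp_neg, ← one_div]
  exact one_div_le_one_div_of_le (by norm_num) (by linarith only [h, h1])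

/-- The sizes of the label. -/
theorem label_sizes {J N i p : ℕ} {x : ℝ} (hN : 0 < N) (hx : 0 ≤ x) (hx1 : x ≤ 1)
    (hi : (i : ℝ) ≤ x * N) (hp : (1 - x) * N ≤ p) :
    ((i * (J / N) : ℕ) : ℝ) ≤ x * J ∧ (J : ℝ) - x * J - N ≤ ((p * (J / N) : ℕ) : ℝ) := by
  have hNJ : (N : ℝ) * ((J / N : ℕ) : ℝ) ≤ J := by exact_mod_cast Nat.mul_div_le J N
  have hNJ2 : (J : ℝ) ≤ N * ((J / N : ℕ) : ℝ) + N := by
    have h1 := Nat.lt_mul_div_succ J hN
    have h2 : (J : ℝ) < ((N * (J / N + 1) : ℕ) : ℝ) := by exact_mod_cast h1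
    push_cast at h2
    linarith only [h2]
  have hu0 : (0 : ℝ) ≤ ((J / N : ℕ) : ℝ) := by positivity
  constructor
  · push_cast
    calc (i : ℝ) * ((J / N : ℕ) : ℝ) ≤ x * N * ((J / N : ℕ) : ℝ) :=
          mul_le_mul_of_nonneg_right hi hu0
      _ = x * (N * ((J / N : ℕ) : ℝ)) := by ring
      _ ≤ x * J := mul_le_mul_of_nonneg_left hNJ hx
  · have h1 : (1 - x) * N * ((J / N : ℕ) : ℝ) ≤ ((p * (J / N) : ℕ) : ℝ) := by
      push_cast
      exact mul_le_mul_of_nonneg_right hp hu0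
    have h2 : (1 - x) * (J - N) ≤ (1 - x) * N * ((J / N : ℕ) : ℝ) := by
      have := mul_le_mul_of_nonneg_left (show (J : ℝ) - N ≤ N * ((J / N : ℕ) : ℝ) by linarith only [hNJ2])
        (show 0 ≤ 1 - x by linarith only [hx1])
      linarith only [this]
    have h3 : (1 - x) * ((J : ℝ) - N) = J - x * J - N + x * N := by ring
    have h4 : 0 ≤ x * N := by positivity
    linarith only [hi, h1, h2]

/-- **(ZRT)** -/
theorem zrt_thm : ZRTStmt := by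
  classical
  intro S i₀ iu iN hc hLEAF hSPS hG0 hGN g h hg hgh hh hT x hx hxg
  have hl2 : 0 < Real.log 2 := Real.log_pos (by norm_num)
  obtain ⟨ε, hε⟩ : ∃ ε, ε = g / 32 := ⟨_, rfl⟩
  have hε0 : 0 < ε := by rw [hε]; positivity
  have hg2 : g < 1 / 2 := by linarith only [hgh, hh]
  have hε1 : ε < 1 / 64 := by rw [hε]; linarith only [hgh, hh]
  obtain ⟨x', hx'⟩ : ∃ x', x' = min x ε := ⟨_, rfl⟩
  have hx'0 : 0 < x' := by rw [hx']; exact lt_min hx hε0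
  have hx'x : x' ≤ x := by rw [hx']; exact min_le_left _ _
  have hx'ε : x' ≤ ε := by rw [hx']; exact min_le_right _ _
  obtain ⟨N, K₁, hleaf⟩ := hLEAF x' hx'0 (fun _ => 0)
  obtain ⟨C, hC, hcore⟩ := core (K₁ + 1) (by omega)
  obtain ⟨ψ₁, hψ₁, c1⟩ := hSPS ε hε0
  obtain ⟨ψ₂, hψ₂, c2⟩ := hG0 (1 / 4) (by norm_num)
  obtain ⟨ψ₃, hψ₃, c3⟩ := hGN (1 / 4) (by norm_num)
  obtain ⟨ψ₄, hψ₄, c4⟩ := hT
  refine Clg.mp ?_ (hleaf.and ((c1.and c2).and (c3.and c4)))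
  refine Clg.one ⟨1, fun J F _ A => RotZ i₀ iu x (g / 2) J F A,
    fun J F _ => RotP.hered _ _ _ _ _ _ _⟩ ?_
  intro κ hκ
  obtain ⟨τ, hτ⟩ : ∃ τ : ℝ, τ = ε * Real.log 2 / (12 * C) := ⟨_, rfl⟩
  have hC0 : 0 < C := by linarith only [hC]
  have hτ0 : 0 < τ := by rw [hτ]; positivity
  have hτC : 12 * C * τ = ε * Real.log 2 := by
    rw [hτ]
    field_simp
  obtain ⟨J₁, hJ₁⟩ := exists_nat_ge (64 / ψ₁ + 64 / ψ₂ + 64 / ψ₃ + 64 / ψ₄ + 64 / κ +
    12 * C / (ε * Real.log 2) + 4 * (N + 1))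
  refine ⟨τ, hτ0, J₁, ?_⟩
  intro J hJ F A hSt hSb hyp
  obtain ⟨⟨K, hK, -, i₁, i, p, ρ, hi, hiρ, hp, hpρ, hρN, hBl⟩, ⟨hSp, hno0⟩, hnoN, hnoT⟩ := hyp
  have hJr : (64 / ψ₁ + 64 / ψ₂ + 64 / ψ₃ + 64 / ψ₄ + 64 / κ +
    12 * C / (ε * Real.log 2) + 4 * (N + 1) : ℝ) ≤ J := hJ₁.trans (by exact_mod_cast hJ)
  have t1 : 0 ≤ 64 / ψ₁ := by positivity
  have t2 : 0 ≤ 64 / ψ₂ := by positivity
  have t3 : 0 ≤ 64 / ψ₃ := by positivity
  have t4 : 0 ≤ 64 / ψ₄ := by positivity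
  have t5 : 0 ≤ 64 / κ := by positivity
  have t6 : 0 ≤ 12 * C / (ε * Real.log 2) := by positivity
  have t7 : (0 : ℝ) ≤ 4 * (N + 1) := by positivity
  have hN : 0 < N := by omega
  have hJN : (4 : ℝ) * (N + 1) ≤ J := by linarith only [hJr, t1, t2, t3, t4, t5, t6]
  have hJ0 : (0 : ℝ) < J := by
    have : (0 : ℝ) < 4 * (N + 1) := by positivity
    linarith only [hJr, t1, t2, t3, t4, t5, t6]
  have hC12 : 12 * C ≤ ε * Real.log 2 * J := by
    have h1 : 12 * C / (ε * Real.log 2) ≤ J := by linarith only [hJr, t1, t2, t3, t4, t5]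
    rw [div_le_iff₀ (by positivity)] at h1
    linarith only [h1]
  have hsmall : ∀ ψ : ℝ, 0 < ψ → 64 / ψ ≤ J → ∀ B : F.Ω → Prop, Pe F.p A / 64 ≤ Pe F.p B →
      Real.exp (-(ψ * J)) * Pe F.p A ≤ Pe F.p B := by
    intro ψ hψ hψJ B hB
    rw [div_le_iff₀ hψ] at hψJ
    have h1 := exp_64 (a := ψ * J) (by linarith only [hψJ])
    have h2 := mul_le_mul_of_nonneg_right h1 (Pe_nonneg F.isLaw A)
    linarith only [hB, h2]
  have hpl := F.isLaw
  have hA : 0 < Pe F.p A := lt_of_lt_of_le (Real.exp_pos _) hSt.2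
  -- the label
  obtain ⟨s1, s2⟩ := label_sizes (J := J) hN hx'0.le (by linarith only [hgh, hh, hxg, hε, hε0, hx'x]) hi hp
  obtain ⟨w, hw⟩ : ∃ w, w = i * (J / N) := ⟨_, rfl⟩
  obtain ⟨P, hP⟩ : ∃ P, P = p * (J / N) := ⟨_, rfl⟩
  have hNJ : N * (J / N) ≤ J := Nat.mul_div_le J N
  have hwJ : w ≤ J := by
    rw [hw]
    exact (Nat.mul_le_mul_right _ (hiρ.trans hρN)).trans hNJ
  have hlab : Lab F i₁ J (K₁ + 1) w w P A := by
    unfold Bl at hBl
    rw [← hw, ← hP] at hBl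
    exact hBl.mono ((Nat.mul_le_mul_right _ hρN).trans hNJ) (by omega) le_rfl le_rfl hwJ le_rfl
  rw [← hw] at s1
  rw [← hP] at s2
  obtain ⟨G, H, hG, hH, hGH⟩ := hlab
  -- sizes
  obtain ⟨Z, hZ⟩ : ∃ Z : ℝ, Z = (2 : ℝ) ^ (ε * J) := ⟨_, rfl⟩
  obtain ⟨y, hy⟩ : ∃ y : ℝ, y = (2 : ℝ) ^ (-(g * J)) := ⟨_, rfl⟩
  obtain ⟨q, hq⟩ : ∃ q : ℝ, q = (2 : ℝ) ^ (-(1 / 2 * (J : ℝ))) := ⟨_, rfl⟩
  have hgε : g = 32 * ε := by rw [hε]; ring
  have h2r : ∀ {a b : ℝ}, a ≤ b → (2 : ℝ) ^ a ≤ (2 : ℝ) ^ b := fun h =>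
    Real.rpow_le_rpow_of_exponent_le (by norm_num) h
  have hεJ : 0 < ε * J := by positivity
  have hεJ1 : 64 * (ε * J) ≤ J := by nlinarith only [hgh, hh, hε]
  have hθ : (0 : ℝ) ≤ 6 * (τ * J) + 5 := by positivity
  have hCθ : C * (6 * (τ * J) + 5 + 1) ≤ ε * J * Real.log 2 := by
    have e1 : C * (6 * (τ * J) + 5 + 1) = (12 * C * τ) * J / 2 + 6 * C := by ring
    rw [e1, hτC]
    linarith only [hC12]
  have hZexp : Z = Real.exp (ε * J * Real.log 2) := by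
    rw [hZ, Real.rpow_def_of_pos (by norm_num)]
    congr 1
    ring
  have hexp : Real.exp (C * (6 * (τ * J) + 5 + 1)) ≤ Z := by
    rw [hZexp]
    exact Real.exp_le_exp.2 hCθ
  have hCZ : C ≤ Z := by
    refine le_trans ?_ hexp
    have h1 := Real.add_one_le_exp (C * (6 * (τ * J) + 5 + 1))
    have h2 : 0 ≤ C * (6 * (τ * J) + 5) := by positivity
    linarith only [hgh, hh, hε, hε0, h1, h2]
  have hwε : (w : ℝ) ≤ ε * J := s1.trans (mul_le_mul_of_nonneg_right hx'ε hJ0.le)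
  obtain ⟨B, hBA, hPB, hRot⟩ := hcore J F i₀ iu iN i₁ w P A G H Z y q (1 / 2 ^ ⌊g * J⌋₊)
    (6 * (τ * J) + 5) hc hwJ ⟨hG, hH, hGH⟩ hA hCZ (by rw [hy]; exact Real.rpow_pos_of_pos (by norm_num) _)
    (by
      rw [hy, hZ, rp_pow, ← Real.rpow_add (by norm_num)]
      rw [← Real.rpow_zero 2]
      refine h2r ?_
      rw [hgε]
      push_cast
      linarith only [hεJ])
    (by rw [hy]; exact floor_inv) (by positivity) hθ hexp
    (by
      refine hCθ.trans (mul_le_mul_of_nonneg_right ?_ hl2.le)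
      linarith only [hgh, hh, hε, hε0, hJr, t1, t2, t3, t4, t5, t6, hεJ1, hwε])
    (by
      rw [hZ, ← Real.rpow_natCast]
      exact h2r hwε)
    (by
      have e1 : (1 : ℝ) / 2 ^ P ≤ (2 : ℝ) ^ (-(J : ℝ) + ε * J + N) := by
        rw [one_div, ← Real.rpow_natCast, ← Real.rpow_neg (by norm_num)]
        refine h2r ?_
        have : x' * J ≤ ε * J := mul_le_mul_of_nonneg_right hx'ε hJ0.le
        linarith only [s2, this]
      have e2 : (1 : ℝ) / 2 ^ J ≤ (2 : ℝ) ^ (-(J : ℝ) + ε * J + N) := by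
        rw [one_div, ← Real.rpow_natCast, ← Real.rpow_neg (by norm_num)]
        refine h2r ?_
        have : (0 : ℝ) ≤ N := Nat.cast_nonneg N
        linarith only [hεJ]
      have e3 : (1 : ℝ) / 2 ^ P + 1 / 2 ^ J ≤ (2 : ℝ) ^ (-(J : ℝ) + ε * J + N + 1) := by
        rw [Real.rpow_add (by norm_num) _ 1, Real.rpow_one]
        linarith only [e1, e2]
      calc Z ^ 4 * (1 / 2 ^ P + 1 / 2 ^ J) ≤
            Z ^ 4 * (2 : ℝ) ^ (-(J : ℝ) + ε * J + N + 1) :=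
          mul_le_mul_of_nonneg_left e3 (by rw [hZ]; positivity)
        _ ≤ q := by
          rw [hZ, rp_pow, ← Real.rpow_add (by norm_num), hq]
          refine h2r ?_
          push_cast
          linarith only [hgh, hh, hε, hε0, hJr, t1, t2, t3, t4, t5, t6, hεJ1])
    (by
      rw [hq, hy]
      refine h2r ?_
      have : g * J ≤ 1 / 2 * J := mul_le_mul_of_nonneg_right hg2.le hJ0.le
      linarith only [this])
    (by
      intro B hB hPB hB0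
      have h1 := Pool.STPA.sub_Tm_of_reg (S.tr hSt.1) (S.tm hSt.1) (S.rb hSt.1) hB0
        (s := τ * J + 5) (by
          refine le_trans ?_ hPB
          have h2 : Real.exp (-(τ * J + 5)) = Real.exp (-(τ * J)) * Real.exp (-5) := by
            rw [← Real.exp_add]
            congr 1
            ring
          have h3 : Real.exp (-5 : ℝ) ≤ 1 / 64 := by
            have h4 : (64 : ℝ) ≤ Real.exp 5 := by
              have h5 := Real.exp_one_gt_d9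
              have h6 : Real.exp 5 = Real.exp 1 ^ 5 := by
                rw [← Real.exp_nat_mul]
                norm_num
              rw [h6]
              have h7 : (2.7 : ℝ) ^ 5 ≤ Real.exp 1 ^ 5 :=
                pow_le_pow_left₀ (by norm_num) (by linarith only [h5]) 5
              have h8 : (64 : ℝ) ≤ 2.7 ^ 5 := by norm_num
              linarith only [h7]
            rw [Real.exp_neg, ← one_div]
            exact one_div_le_one_div_of_le (by norm_num) h4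
          rw [h2]
          calc Real.exp (-(τ * J)) * Real.exp (-5) ≤ Pe F.p A * (1 / 64) :=
                mul_le_mul hSt.2 h3 (Real.exp_pos _).le hA.le
            _ = _ := by ring)
      have e1 : 4 * (τ * J) + τ * J + (τ * J + 5) = 6 * (τ * J) + 5 := by ring
      rw [e1] at h1
      exact h1)
    (by
      intro B hB hPB hGr
      refine hno0 B hB (hsmall ψ₂ hψ₂ (by linarith only [hJr, t1, t3, t4, t5, t6]) B hPB) (grp_mono ?_ hGr)
      refine le_trans ?_ (inv_floor (by positivity))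
      rw [hq]
      refine h2r ?_
      linarith only [hJr, t1, t2, t3, t4, t5, t6])
    (by
      intro B hB hPB hGr
      refine hnoN B hB (hsmall ψ₃ hψ₃ (by linarith only [hJr, t1, t2, t4, t5, t6]) B hPB) (grp_mono ?_ hGr)
      refine le_trans ?_ (inv_floor (by positivity))
      rw [hq]
      refine h2r ?_
      linarith only [hJr, t1, t2, t3, t4, t5, t6])
    (by
      intro B hB hPB hTi
      refine hnoT B hB (hsmall ψ₄ hψ₄ (by linarith only [hJr, t1, t2, t3, t5, t6]) B hPB) (tilt_mono ?_ hTi)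
      have hh0 : 0 < h := hg.trans hgh
      refine le_trans ?_ (inv_floor (by positivity))
      rw [hq]
      refine h2r ?_
      have : h * J ≤ 1 / 2 * J := mul_le_mul_of_nonneg_right hh hJ0.le
      linarith only [this])
    (by
      intro B hB hPB hPl
      refine hSp B hB (hsmall ψ₁ hψ₁ (by linarith only [hJr, t2, t3, t4, t5, t6]) B hPB) (hPl.mono ?_)
      refine le_trans (le_of_eq ?_) (inv_floor hεJ.le)
      rw [hZ, Real.rpow_neg (by norm_num), one_div])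
  -- conclusion
  have hxJ : w ≤ ⌊x * J⌋₊ :=
    Nat.le_floor (s1.trans (mul_le_mul_of_nonneg_right hx'x hJ0.le))
  have hxJ2 : ⌊x * J⌋₊ ≤ J := by
    have h1 : x * J ≤ J := by nlinarith only [hgh, hh, hε, hε0, hJr, t1, t2, t3, t4, t5, t6, hxg]
    have h2 := Nat.floor_le_floor h1
    rwa [Nat.floor_natCast] at h2
  have hRotZ : RotZ i₀ iu x (g / 2) J F B := by
    refine rot_mono ?_ hxJ hxJ2 hRot
    refine le_trans ?_ (inv_floor (by positivity))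
    rw [hZ, hy, rp_pow, ← Real.rpow_add (by norm_num)]
    refine h2r ?_
    rw [hgε]
    push_cast
    linarith only [hεJ]
  exact (hSb 0).of_sub hBA (hsmall κ hκ (by linarith only [hJr, t1, t2, t3, t4, t6]) B hPB) hRotZ

end Pool.PZ.Zrt

/-- **(ZRT)** -/
theorem Pool.PZ.zrt_thm : Pool.PZ.ZRTStmt := Pool.PZ.Zrt.zrt_thm
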