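import Pool.Agent.H74.PZ.Fan

/-!
# Row ZRT: the chain of events for one family
-/

set_option autoImplicit false

namespace Pool.PZ.Zrt

open Finset MvPolynomial
open Pool.Agent.H49.Ent Pool.Agent.H32.Dense Pool.STK Pool.KA Pool.KSAT Pool.K2S Pool.PB
open Pool.PB.Trl Pool.FLF Pool.Agent.H39.BFL Pool.BFL

/-! ### Events -/

theorem Pe_split {Ω : Type} [Fintype Ω] (p : Ω → ℝ) (B X : Ω → Prop) :
    Pe p B ≤ Pe p (fun ω => B ω ∧ X ω) + Pe p (fun ω => B ω ∧ ¬ X ω) := by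
  classical
  rw [Pe_eq, Pe_eq, Pe_eq, ← Finset.sum_add_distrib]
  refine Finset.sum_le_sum fun ω _ => ?_
  by_cases h1 : B ω <;> by_cases h2 : X ω <;> simp [h1, h2]

theorem Pe_cover {Ω : Type} [Fintype Ω] {p : Ω → ℝ} (hp : IsLaw p) {B X Y : Ω → Prop}
    (h : ∀ ω, B ω → X ω ∨ Y ω) :
    Pe p B ≤ Pe p (fun ω => B ω ∧ X ω) + Pe p (fun ω => B ω ∧ Y ω) := by
  refine (Pe_split p B X).trans ?_
  have : Pe p (fun ω => B ω ∧ ¬ X ω) ≤ Pe p (fun ω => B ω ∧ Y ω) :=
    Pe_mono hp fun ω hω => ⟨hω.1, (h ω hω.1).resolve_left hω.2⟩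
  linarith

/-! ### Sums -/

theorem sum_vl_split {m : ℕ} (i₁ : Fin m) (d f : Fin m → ℝ) :
    ∑ j, vl i₁ d j * f j = f i₁ + ∑ j, (if j = i₁ then 0 else f j) * d j := by
  classical
  have h : f i₁ = ∑ j, (if j = i₁ then f j else 0) := by
    rw [Finset.sum_ite_eq' univ i₁]
    simp
  rw [h, ← Finset.sum_add_distrib]
  refine Finset.sum_congr rfl fun j _ => ?_
  unfold vl
  by_cases hj : j = i₁
  · subst hj
    rw [Function.update_self, if_pos rfl, if_pos rfl]
    ring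
  · rw [Function.update_of_ne hj, if_neg hj, if_neg hj]
    ring

theorem cov_vl {i₀ iu iN : Fin 3} (h : ∀ j : Fin 3, j = i₀ ∨ j = iu ∨ j = iN)
    (d f : Fin 3 → ℝ) : ∑ j, vl iu d j * f j = f iu + d i₀ * f i₀ + d iN * f iN := by
  obtain ⟨h1, h2, h3⟩ := cov_ne h
  rw [cov_sum h]
  unfold vl
  rw [Function.update_self, Function.update_of_ne h1, Function.update_of_ne (Ne.symm h3), one_mul]

theorem poly_mvt {p : Polynomial ℝ} {M : ℝ}
    (h : ∀ τ ∈ Set.Icc (0 : ℝ) 1, |(Polynomial.derivative p).eval τ| ≤ M) {τ : ℝ}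
    (hτ : τ ∈ Set.Icc (0 : ℝ) 1) : |p.eval τ - p.eval 0| ≤ M := by
  have h1 := (convex_Icc (0 : ℝ) 1).norm_image_sub_le_of_norm_hasDerivWithin_le
    (f := fun t => p.eval t) (f' := fun t => (Polynomial.derivative p).eval t) (C := M)
    (fun x _ => (p.hasDerivAt x).hasDerivWithinAt) (fun x hx => h x hx)
    (Set.left_mem_Icc.2 zero_le_one) hτ
  have hM : 0 ≤ M := le_trans (abs_nonneg _) (h τ hτ)
  rw [sub_zero, Real.norm_eq_abs, Real.norm_eq_abs, abs_of_nonneg hτ.1] at h1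
  exact h1.trans (mul_le_of_le_one_right hM hτ.2)

/-- The graph property from the slopes of the point polynomial. -/
theorem grp_of {J : ℕ} {F : Fam 3 J} {i₁ : Fin 3}
    {G : (Fin 3 → ℤ) × (ℕ × F.ζ) → MvPolynomial (Fin 3) ℝ} {B : F.Ω → Prop} {κ : ℝ}
    (hb : ∀ ω, B ω → ∀ j, |g1 i₁ J G (Fam.pt F ω) j| ≤ 2 * ((3 : ℕ) : ℝ))
    (h : ∀ ω, B ω →
      |F.d ω i₁ - ∑ j, vl i₁ (F.d ω) j * g1 i₁ J G (Fam.pt F ω) j| ≤ κ) :
    GrP i₁ (2 * ((3 : ℕ) : ℝ)) κ (Fam.pt F) F.d B := by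
  refine ⟨fun y => g1 i₁ J G y i₁, fun y j => if j = i₁ then 0 else g1 i₁ J G y j,
    fun ω hω => ⟨if_pos rfl, fun j => ?_, ?_⟩⟩
  · beta_reduce
    by_cases hj : j = i₁
    · rw [if_pos hj, abs_zero]
      positivity
    · rw [if_neg hj]
      exact hb ω hω j
  · have h1 := h ω hω
    rw [sum_vl_split] at h1
    refine le_trans (le_of_eq ?_) h1
    congr 1
    ring

theorem absorb {Z y : ℝ} (hy : 0 ≤ y) (hZ : 100 ≤ Z) {k l : ℕ} (h : k < l) :
    100 * (Z ^ k * y) ≤ Z ^ l * y := by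
  have hZ0 : 0 ≤ Z := by linarith only [hZ]
  have h1 : Z ^ (k + 1) ≤ Z ^ l := pow_le_pow_right₀ (by linarith only [hZ]) (by omega)
  calc 100 * (Z ^ k * y) ≤ Z * (Z ^ k * y) := mul_le_mul_of_nonneg_right hZ (by positivity)
    _ = Z ^ (k + 1) * y := by ring
    _ ≤ Z ^ l * y := mul_le_mul_of_nonneg_right h1 hy

/-- A number of size at most one times a number. -/
theorem mul_le_of_one {a b M : ℝ} (ha : |a| ≤ 1) (hb : |b| ≤ M) : |a * b| ≤ M := by
  rw [abs_mul]
  calc |a| * |b| ≤ 1 * M := mul_le_mul ha hb (abs_nonneg _) zero_le_one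
    _ = M := one_mul _

/-- The quadratic form of the second derivatives, when the derivatives in the third coordinate are
small. -/
theorem quad_part {q v ν buu bu0 b00 buN b0N bNN κ e : ℝ} (hv : |v| ≤ 1) (hν : |ν| ≤ 1)
    (h : |q| ≤ κ) (hq : q = (buu + v * bu0 + ν * buN) + v * (bu0 + v * b00 + ν * b0N) +
      ν * (buN + v * b0N + ν * bNN)) (h1 : |buN| ≤ 3 * e) (h2 : |b0N| ≤ e) (h3 : |bNN| ≤ e) :
    |buu + 2 * bu0 * v + b00 * v ^ 2| ≤ κ + 9 * e := by
  have e1 : buu + 2 * bu0 * v + b00 * v ^ 2 = q - (ν * buN + ν * buN) - (v * (ν * b0N) +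
      v * (ν * b0N)) - ν * (ν * bNN) := by rw [hq]; ring
  have a1 := mul_le_of_one hν h1
  have a2 := mul_le_of_one hv (mul_le_of_one hν h2)
  have a3 := mul_le_of_one hν (mul_le_of_one hν h3)
  rw [e1]
  rw [abs_le] at a1 a2 a3 h ⊢
  constructor <;> linarith only [h, a1, a2, a3, a1.1, a1.2, a2.1, a2.2, a3.1, a3.2, h.1, h.2]

/-- **The chain of events.** -/
theorem core (K : ℕ) (hK : 1 ≤ K) : ∃ C : ℝ, 1 ≤ C ∧ ∀ (J : ℕ) (F : Fam 3 J)
    (i₀ iu iN i₁ : Fin 3) (w P : ℕ) (A : F.Ω → Prop)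
    (G : (Fin 3 → ℤ) × (ℕ × F.ζ) → MvPolynomial (Fin 3) ℝ)
    (H : ((Fin 3 → ℝ) × (Fin 3 → ℝ)) × F.ζ × ℕ → MvPolynomial (Fin 3) ℝ) (Z y κ γ θ : ℝ),
    (∀ j : Fin 3, j = i₀ ∨ j = iu ∨ j = iN) → w ≤ J → BL F i₁ K w P G H A → 0 < Pe F.p A →
    C ≤ Z → 0 < y → y * Z ^ 2 ≤ 1 → γ ≤ 2 * y → 0 ≤ γ → 0 ≤ θ → Real.exp (C * (θ + 1)) ≤ Z →
    C * (θ + 1) ≤ ((J : ℝ) - w) * Real.log 2 → (2 : ℝ) ^ w ≤ Z →
    Z ^ 4 * (1 / 2 ^ P + 1 / 2 ^ J) ≤ κ → κ ≤ y →
    (∀ B : F.Ω → Prop, Sub B A → Pe F.p A / 64 ≤ Pe F.p B → ∀ hB : 0 < Pe F.p B,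
      (Fam.sub F B hB).Tm θ) →
    (∀ B : F.Ω → Prop, Sub B A → Pe F.p A / 64 ≤ Pe F.p B →
      ¬ GrP i₀ (2 * ((3 : ℕ) : ℝ)) κ (Fam.pt F) F.d B) →
    (∀ B : F.Ω → Prop, Sub B A → Pe F.p A / 64 ≤ Pe F.p B →
      ¬ GrP iN (2 * ((3 : ℕ) : ℝ)) κ (Fam.pt F) F.d B) →
    (∀ B : F.Ω → Prop, Sub B A → Pe F.p A / 64 ≤ Pe F.p B →
      ¬ TiltP i₀ iu iN (2 * ((3 : ℕ) : ℝ)) γ κ (Fam.pt F) F.d B) →
    (∀ B : F.Ω → Prop, Sub B A → Pe F.p A / 64 ≤ Pe F.p B →
      ¬ PlU 1 (1 / Z) (Fam.pt F) F.d B) →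
    ∃ B : F.Ω → Prop, Sub B A ∧ Pe F.p A / 64 ≤ Pe F.p B ∧
      RotP i₀ iu (2 * ((3 : ℕ) : ℝ)) (Z ^ 15 * y) (Fam.pt F) (slam F w) F.d B := by
  classical
  obtain ⟨C₁, hC₁, hgraph⟩ := rem_graph 3 K hK
  obtain ⟨C₂, hC₂, hrem⟩ := rem_lab 3 K
  obtain ⟨C₃, hC₃, hcmp⟩ := lab_cmp 3 K
  obtain ⟨C, hC⟩ : ∃ C, C = C₁ + C₂ + C₃ + 100 := ⟨_, rfl⟩
  refine ⟨C, by linarith only [hC₁, hC₂, hC₃, hC], ?_⟩
  intro J F i₀ iu iN i₁ w P A G H Z y κ γ θ hc hw hBL hA hCZ hy hyZ hγy hγ hθ hexp hCJ h2w hκ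
    hκy hTm hG0 hGN hTilt hPl
  obtain ⟨n1, n2, n3⟩ := cov_ne hc
  have hp := F.isLaw
  have hZ : 100 ≤ Z := by linarith only [hC₁, hC₂, hC₃, hC, hCZ]
  have hZ0 : 0 < Z := by linarith
  have hmono : ∀ C', C' ≤ C → C' * (θ + 1) ≤ C * (θ + 1) := fun C' h =>
    mul_le_mul_of_nonneg_right h (by linarith)
  have h2w0 : (0 : ℝ) < 2 ^ w := by positivity
  have h4w : (4 : ℝ) ^ w = 2 ^ w * 2 ^ w := by
    rw [← mul_pow]
    norm_num
  obtain ⟨q, hq⟩ : ∃ q : ℝ, q = 1 / 2 ^ P + 1 / 2 ^ J := ⟨_, rfl⟩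
  have hq0 : 0 < q := by rw [hq]; positivity
  rw [← hq] at hκ
  have hκ0 : 0 < κ := lt_of_lt_of_le (by positivity) hκ
  -- sizes
  have k1 : Z ^ 2 * (2 ^ w * q) ≤ κ := by
    refine le_trans ?_ hκ
    calc Z ^ 2 * (2 ^ w * q) ≤ Z ^ 2 * (Z * q) :=
          mul_le_mul_of_nonneg_left (mul_le_mul_of_nonneg_right h2w hq0.le) (by positivity)
      _ = Z ^ 3 * q := by ring
      _ ≤ Z ^ 4 * q := mul_le_mul_of_nonneg_right
          (pow_le_pow_right₀ (by linarith only [hC₁, hC₂, hC₃, hC, hCZ]) (by norm_num)) hq0.le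
  exact by
   have h4Z : (4 : ℝ) ^ w ≤ Z ^ 2 := by
     rw [h4w, sq]
     exact mul_le_mul h2w h2w h2w0.le hZ0.le
   have k2 : Z ^ 2 * (4 ^ w * q) ≤ κ := by
     refine le_trans ?_ hκ
     calc Z ^ 2 * (4 ^ w * q) ≤ Z ^ 2 * (Z ^ 2 * q) :=
           mul_le_mul_of_nonneg_left (mul_le_mul_of_nonneg_right h4Z hq0.le) (by positivity)
       _ = Z ^ 4 * q := by ring
   have k3 : C₃ * 2 ^ w * q ≤ κ := by
     refine le_trans ?_ k1
     rw [mul_assoc]
     refine mul_le_mul_of_nonneg_right ?_ (by positivity)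
     nlinarith only [hC₁, hC₂, hC₃, hC, hCZ]
   have k4 : C₃ * 4 ^ w * q ≤ κ := by
     refine le_trans ?_ k2
     rw [mul_assoc]
     refine mul_le_mul_of_nonneg_right ?_ (by positivity)
     nlinarith only [hC₁, hC₂, hC₃, hC, hCZ]
   have f3 : 100 * y ≤ Z ^ 3 * y := by
     have := absorb hy.le hZ (show 0 < 3 by norm_num)
     simpa using this
   have f4 := absorb hy.le hZ (show 3 < 4 by norm_num)
   have f6 := absorb hy.le hZ (show 4 < 6 by norm_num)
   have f7 := absorb hy.le hZ (show 6 < 7 by norm_num)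
   have f8 := absorb hy.le hZ (show 7 < 8 by norm_num)
   have f12 := absorb hy.le hZ (show 8 < 12 by norm_num)
   have f13 := absorb hy.le hZ (show 12 < 13 by norm_num)
   have f14 := absorb hy.le hZ (show 13 < 14 by norm_num)
   have f15 := absorb hy.le hZ (show 14 < 15 by norm_num)
   -- step 1
   exact by
    obtain ⟨B1, hB1A, hP1, hB1⟩ := hgraph J F i₁ w P G H A hA θ Z hw hBL hθ
      (hTm A (fun _ h => h) (by linarith only [hA]) hA) (by linarith only [hC₂, hC₃, hC, hCZ])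
      ((Real.exp_le_exp.2 (hmono C₁ (by linarith only [hC₂, hC₃, hC]))).trans hexp)
      ((hmono C₁ (by linarith only [hC₂, hC₃, hC])).trans hCJ)
    rw [← hq] at hB1
    have hA64 : ∀ B : F.Ω → Prop, Pe F.p A * (1 / 64) ≤ Pe F.p B → Pe F.p A / 64 ≤ Pe F.p B :=
      fun B h => by linarith only [h]
    have hcmpA := hcmp J F i₁ w P G H A hw hBL
    have hi₁ : i₁ = iu := by
      have hgr : GrP i₁ (2 * ((3 : ℕ) : ℝ)) κ (Fam.pt F) F.d B1 :=
        grp_of (fun ω hω => (hcmpA ω (hB1A ω hω)).1) fun ω hω => (hB1 ω hω).1.trans k1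
      rcases hc i₁ with h | h | h
      · rw [h] at hgr
        exact absurd hgr (hG0 B1 hB1A (by linarith only [hA, hP1]))
      · exact h
      · rw [h] at hgr
        exact absurd hgr (hGN B1 hB1A (by linarith only [hA, hP1]))
    subst hi₁
    obtain ⟨a, ha⟩ : ∃ a : F.Ω → Fin 3 → ℝ, a = fun ω => g1 i₁ J G (Fam.pt F ω) := ⟨_, rfl⟩
    obtain ⟨b, hb⟩ : ∃ b : F.Ω → Fin 3 → Fin 3 → ℝ, b = fun ω => g2 i₁ J G (Fam.pt F ω) :=
      ⟨_, rfl⟩
    have hbs : ∀ ω i j, b ω i j = b ω j i := fun ω i j => by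
      rw [hb]
      exact g2_symm i₁ J G _ i j
    have hd0 : ∀ ω, |F.d ω i₀| ≤ 1 := fun ω => F.dir ω i₀
    have hdN : ∀ ω, |F.d ω iN| ≤ 1 := fun ω => F.dir ω iN
    have cA : ∀ ω, A ω → (∀ j, |a ω j| ≤ 2 * ((3 : ℕ) : ℝ)) ∧
        (∀ j, |eval (bp F i₁ ω) (pderiv j (H (slam F w ω))) - a ω j| ≤ κ) ∧
        ∀ i j, |eval (bp F i₁ ω) (pderiv i (pderiv j (H (slam F w ω)))) - b ω i j| ≤ κ := by
      intro ω hω
      obtain ⟨c1, c2, c3⟩ := hcmpA ω hω
      rw [← hq] at c2 c3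
      rw [ha, hb]
      exact ⟨c1, fun j => (c2 j).trans k3, fun i j => (c3 i j).trans k4⟩
    exact by
     have r1 : ∀ ω, B1 ω → |F.d ω i₁ - a ω i₁ - a ω i₀ * F.d ω i₀ - a ω iN * F.d ω iN| ≤ κ := by
       intro ω hω
       have h1 := (hB1 ω hω).1.trans k1
       rw [cov_vl hc] at h1
       refine le_trans (le_of_eq ?_) h1
       rw [ha]
       congr 1
       ring
     have r2 : ∀ ω, B1 ω → |(b ω i₁ i₁ + F.d ω i₀ * b ω i₁ i₀ + F.d ω iN * b ω i₁ iN) +
         F.d ω i₀ * (b ω i₁ i₀ + F.d ω i₀ * b ω i₀ i₀ + F.d ω iN * b ω i₀ iN) +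
         F.d ω iN * (b ω i₁ iN + F.d ω i₀ * b ω i₀ iN + F.d ω iN * b ω iN iN)| ≤ κ := by
       intro ω hω
       have h1 := (hB1 ω hω).2.trans k2
       rw [cov_vl hc] at h1
       simp only [cov_vl hc] at h1
       have e0 : g2 i₁ J G (Fam.pt F ω) = b ω := by rw [hb]
       rw [e0, hbs ω i₀ i₁, hbs ω iN i₁, hbs ω iN i₀] at h1
       exact h1
     -- step 2: no tilt
     obtain ⟨B2, hB2⟩ : ∃ B2 : F.Ω → Prop, B2 = fun ω => B1 ω ∧ ¬ γ ≤ |a ω iN| := ⟨_, rfl⟩
     have hB21 : Sub B2 B1 := by rw [hB2]; exact fun ω h => h.1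
     have hP2 : Pe F.p A * (31 / 64) ≤ Pe F.p B2 := by
       have h1 := Pe_split F.p B1 fun ω => γ ≤ |a ω iN|
       have h2 : Pe F.p (fun ω => B1 ω ∧ γ ≤ |a ω iN|) < Pe F.p A / 64 := by
         by_contra hcon
         refine hTilt _ (fun ω hω => hB1A ω hω.1) (not_lt.1 hcon)
           ⟨fun y => g1 i₁ J G y i₁, fun y => g1 i₁ J G y i₀, fun y => g1 i₁ J G y iN,
             fun ω hω => ?_⟩
         have h3 := (cA ω (hB1A ω hω.1)).1
         have h4 := r1 ω hω.1
         have h5 := hω.2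
         rw [ha] at h3 h4 h5
         exact ⟨h3 i₀, h3 iN, h5, h4⟩
       rw [← hB2] at h1
       linarith only [hP1, h1, h2]
     exact by
      have hB2A := hB21.trans hB1A
      -- step 3: the slope in the third coordinate is small on the base lines
      have hPB2 : 0 < Pe F.p B2 := lt_of_lt_of_le (by positivity) hP2
      obtain ⟨B3, hB32, hP3, hB3⟩ := hrem J F i₁ B2 hPB2 w (fun s => pderiv iN (H s)) (γ + κ) θ Z hw
        (fun s => totalDegree_pd (hBL.2.1 s) iN) (by linarith only [hγ, hκ0]) hθ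
        (hTm B2 hB2A (hA64 _ (le_trans (by nlinarith only [hA]) hP2)) hPB2) (by linarith only [hC₁, hC₃, hC, hCZ])
        ((Real.exp_le_exp.2 (hmono C₂ (by linarith only [hC₁, hC₃, hC]))).trans hexp)
        ((hmono C₂ (by linarith only [hC₁, hC₃, hC])).trans hCJ) (fun ω hω => by
          have h1 := (cA ω (hB2A ω hω)).2.1 iN
          have h2 : |a ω iN| ≤ γ := by
            rw [hB2] at hω
            exact (not_le.1 hω.2).le
          rw [abs_le] at h1 h2 ⊢
          constructor <;> linarith only [h1, h2, h1.1, h1.2, h2.1, h2.2])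
      have hB31 := hB32.trans hB21
      have hB3A := hB32.trans hB2A
      have e3 : 2 ^ w * (Z ^ 2 * (γ + κ)) ≤ 3 * (Z ^ 3 * y) := by
        calc 2 ^ w * (Z ^ 2 * (γ + κ)) ≤ Z * (Z ^ 2 * (3 * y)) :=
              mul_le_mul h2w (mul_le_mul_of_nonneg_left (by linarith only [hγy, hκy]) (by positivity))
                (by positivity) hZ0.le
          _ = _ := by ring
      have r3 : ∀ ω, B3 ω →
          |b ω i₁ iN + b ω i₀ iN * F.d ω i₀ + b ω iN iN * F.d ω iN| ≤ Z ^ 4 * y := by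
        intro ω hω
        have h1 := (hB3 ω hω).2.trans e3
        rw [eval_dd, cov_vl hc] at h1
        have c3 := (cA ω (hB3A ω hω)).2.2
        have h2 := c3 i₁ iN
        have h3 := mul_le_of_one (hd0 ω) (c3 i₀ iN)
        have h4 := mul_le_of_one (hdN ω) (c3 iN iN)
        rw [abs_le] at h1 h2 h3 h4 ⊢
        constructor <;> nlinarith only [hy, hκy, f3, f4, h1, h2, h3, h4, h1.1, h1.2, h2.1, h2.2, h3.1, h3.2, h4.1, h4.2]
      -- step 4: the first exclusion of fans near lines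
      exact by
       obtain ⟨X4, hX4⟩ : ∃ X4 : F.Ω → Prop,
           X4 = fun ω => Z ^ 6 * y ≤ |b ω i₀ iN| ∨ Z ^ 6 * y ≤ |b ω iN iN| := ⟨_, rfl⟩
       obtain ⟨B4, hB4⟩ : ∃ B4 : F.Ω → Prop, B4 = fun ω => B3 ω ∧ ¬ X4 ω := ⟨_, rfl⟩
       have hB43 : Sub B4 B3 := by rw [hB4]; exact fun ω h => h.1
       have hZ6 : 0 < Z ^ 6 * y := by positivity
       have hZ12 : 0 < Z ^ 12 * y := by positivity
       have hinv : κ + 6 * (1 / Z ^ 2) ≤ 1 / Z := by
         have h1 : y ≤ 1 / Z ^ 2 := by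
           rw [le_div_iff₀ (by positivity)]
           exact hyZ
         have h2 : 7 * (1 / Z ^ 2) ≤ 1 / Z := by
           rw [mul_one_div, div_le_div_iff₀ (by positivity) hZ0]
           nlinarith only [hC₁, hC₂, hC₃, hC, hCZ, hy, f3, f4, hyZ]
         linarith only [hκy, h1, h2]
       have hinv2 : 1 / Z ^ 2 ≤ 1 / Z := by
         have : 0 < 1 / Z ^ 2 := by positivity
         linarith only [hκ0, hinv, this]
       have hP4 : Pe F.p A * (29 / 128) ≤ Pe F.p B4 := by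
         have h1 := Pe_split F.p B3 X4
         have h2 : Pe F.p (fun ω => B3 ω ∧ X4 ω) < Pe F.p A / 64 := by
           by_contra hcon
           refine hPl _ (fun ω hω => hB3A ω hω.1) (not_lt.1 hcon) ?_
           have hdiv : Z ^ 4 * y / (Z ^ 6 * y) = 1 / Z ^ 2 := by
             field_simp
           refine lin_fan hc (Fam.pt F) F.d _ (fun y => g1 i₁ J G y i₁) (fun y => g1 i₁ J G y i₀)
             (fun y => g1 i₁ J G y iN) (fun y => g2 i₁ J G y i₁ iN) (fun y => g2 i₁ J G y i₀ iN)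
             (fun y => g2 i₁ J G y iN iN) (α := κ) (ε := Z ^ 4 * y) (M := Z ^ 6 * y)
             (K := 2 * ((3 : ℕ) : ℝ)) hZ6 (by positivity) ?_ ?_ fun ω hω => ?_
           · rw [hdiv]
             refine le_trans (le_of_eq ?_) hinv
             norm_num
           · rw [hdiv]
             exact hinv2
           · have h3 := (cA ω (hB3A ω hω.1)).1
             have h4 := r1 ω (hB31 ω hω.1)
             have h5 := r3 ω hω.1
             have h6 := hω.2
             rw [hX4] at h6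
             rw [ha] at h3 h4
             rw [hb] at h5 h6
             exact ⟨h3 i₀, h3 iN, h4, h5, h6⟩
         rw [← hB4] at h1
         linarith only [hP2, hP3, h1, h2]
       exact by
        have hB4A := hB43.trans hB3A
        have s4 : ∀ ω, B4 ω → |b ω i₁ iN| ≤ 3 * (Z ^ 6 * y) ∧ |b ω i₀ iN| ≤ Z ^ 6 * y ∧
            |b ω iN iN| ≤ Z ^ 6 * y := by
          intro ω hω
          have h1 := r3 ω (hB43 ω hω)
          rw [hB4] at hω
          have h2 := hω.2
          rw [hX4] at h2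
          beta_reduce at h2
          rw [not_or, not_le, not_le] at h2
          refine ⟨?_, h2.1.le, h2.2.le⟩
          have h3 : |b ω i₀ iN * F.d ω i₀| ≤ Z ^ 6 * y := by
            rw [mul_comm]
            exact mul_le_of_one (hd0 ω) h2.1.le
          have h4 : |b ω iN iN * F.d ω iN| ≤ Z ^ 6 * y := by
            rw [mul_comm]
            exact mul_le_of_one (hdN ω) h2.2.le
          rw [abs_le] at h1 h3 h4 ⊢
          constructor <;> linarith only [hy, f3, f4, f6, h1, h3, h4, h1.1, h1.2, h3.1, h3.2, h4.1, h4.2]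
        -- step 5: the second exclusion
        have r5 : ∀ ω, B4 ω →
            |b ω i₁ i₁ + 2 * b ω i₁ i₀ * F.d ω i₀ + b ω i₀ i₀ * F.d ω i₀ ^ 2| ≤ Z ^ 7 * y := by
          intro ω hω
          obtain ⟨h1, h2, h3⟩ := s4 ω hω
          have h4 := quad_part (hd0 ω) (hdN ω) (r2 ω (hB31 ω (hB43 ω hω))) rfl h1 h2 h3
          linarith only [hy, hκy, f3, f4, f6, f7, h4]
        have hchoose : ∀ y' : (Fin 3 → ℤ) × (ℕ × F.ζ), ∃ r : ℝ × ℝ,
            (Z ^ 12 * y ≤ |g2 i₁ J G y' i₁ i₁| ∨ Z ^ 12 * y ≤ |2 * g2 i₁ J G y' i₁ i₀| ∨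
              Z ^ 12 * y ≤ |g2 i₁ J G y' i₀ i₀|) → ∀ v : ℝ, |v| ≤ 1 →
            |g2 i₁ J G y' i₁ i₁ + 2 * g2 i₁ J G y' i₁ i₀ * v + g2 i₁ J G y' i₀ i₀ * v ^ 2| ≤
              Z ^ 7 * y → |v - r.1| ≤ 1 / Z ^ 2 ∨ |v - r.2| ≤ 1 / Z ^ 2 := by
          intro y'
          by_cases hcnd : (Z ^ 12 * y ≤ |g2 i₁ J G y' i₁ i₁| ∨ Z ^ 12 * y ≤ |2 * g2 i₁ J G y' i₁ i₀| ∨
              Z ^ 12 * y ≤ |g2 i₁ J G y' i₀ i₀|)
          · obtain ⟨r₁, r₂, hr⟩ := quad_two (ε := Z ^ 7 * y) (δ := 1 / Z ^ 2) (by positivity)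
              (by positivity) hcnd (by
                have e1 : Z ^ 12 * y * (1 / Z ^ 2) ^ 2 = Z ^ 8 * y := by
                  field_simp
                rw [e1]
                nlinarith only [hy, f3, f4, f6, f7, f8])
            exact ⟨(r₁, r₂), fun _ => hr⟩
          · exact ⟨(0, 0), fun h => absurd h hcnd⟩
        choose r hr using hchoose
        exact by
         obtain ⟨X5, hX5⟩ : ∃ X5 : F.Ω → Prop, X5 = fun ω => Z ^ 12 * y ≤ |b ω i₁ i₁| ∨
             Z ^ 12 * y ≤ |2 * b ω i₁ i₀| ∨ Z ^ 12 * y ≤ |b ω i₀ i₀| := ⟨_, rfl⟩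
         obtain ⟨B5, hB5⟩ : ∃ B5 : F.Ω → Prop, B5 = fun ω => B4 ω ∧ ¬ X5 ω := ⟨_, rfl⟩
         have hB54 : Sub B5 B4 := by rw [hB5]; exact fun ω h => h.1
         have hnear : ∀ (f : (Fin 3 → ℤ) × (ℕ × F.ζ) → ℝ), Pe F.p (fun ω => (B4 ω ∧ X5 ω) ∧
             |F.d ω i₀ - f (Fam.pt F ω)| ≤ 1 / Z ^ 2) < Pe F.p A / 64 := by
           intro f
           by_contra hcon
           refine hPl _ (fun ω hω => hB4A ω hω.1.1) (not_lt.1 hcon) ?_
           refine lin_fan hc (Fam.pt F) F.d _ (fun y => g1 i₁ J G y i₁) (fun y => g1 i₁ J G y i₀)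
             (fun y => g1 i₁ J G y iN) (fun y => -f y) (fun _ => 1)
             (fun _ => 0) (α := κ) (ε := 1 / Z ^ 2) (M := 1)
             (K := 2 * ((3 : ℕ) : ℝ)) one_pos (by positivity) ?_ ?_ fun ω hω => ?_
           · rw [div_one]
             refine le_trans (le_of_eq ?_) hinv
             norm_num
           · rw [div_one]
             exact hinv2
           · have h3 := (cA ω (hB4A ω hω.1.1)).1
             have h4 := r1 ω (hB31 ω (hB43 ω hω.1.1))
             rw [ha] at h3 h4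
             refine ⟨h3 i₀, h3 iN, h4, ?_, Or.inl (by rw [abs_one])⟩
             refine le_trans (le_of_eq ?_) hω.2
             congr 1
             ring
         have hP5 : Pe F.p A * (25 / 128) ≤ Pe F.p B5 := by
           have h1 := Pe_split F.p B4 X5
           have h2 := Pe_cover hp (B := fun ω => B4 ω ∧ X5 ω)
             (X := fun ω => |F.d ω i₀ - (r (Fam.pt F ω)).1| ≤ 1 / Z ^ 2)
             (Y := fun ω => |F.d ω i₀ - (r (Fam.pt F ω)).2| ≤ 1 / Z ^ 2) (by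
               intro ω hω
               have h3 := r5 ω hω.1
               have h4 := hω.2
               rw [hX5] at h4
               rw [hb] at h3 h4
               exact hr _ h4 _ (hd0 ω) h3)
           have h3 := hnear fun y => (r y).1
           have h4 := hnear fun y => (r y).2
           rw [← hB5] at h1
           linarith only [hP4, h1, h2, h3, h4]
         exact by
          have hB5A := hB54.trans hB4A
          -- step 6: the slope is constant along the base lines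
          have s5 : ∀ ω, B5 ω → |b ω i₁ i₀| ≤ Z ^ 12 * y ∧ |b ω i₀ i₀| ≤ Z ^ 12 * y := by
            intro ω hω
            rw [hB5] at hω
            have h2 := hω.2
            rw [hX5] at h2
            beta_reduce at h2
            rw [not_or, not_or, not_le, not_le, not_le, abs_mul, abs_of_pos (show (0 : ℝ) < 2 by norm_num)]
              at h2
            have h3 := abs_nonneg (b ω i₁ i₀)
            exact ⟨by linarith only [hy, f3, f4, f6, f7, f8, f12, h2, h2.2.1], h2.2.2.le⟩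
          have hPB5 : 0 < Pe F.p B5 := lt_of_lt_of_le (by positivity) hP5
          obtain ⟨B6, hB65, hP6, hB6⟩ := hrem J F i₁ B5 hPB5 w
            (fun s => dd i₁ s.1.2 (pderiv i₀ (H s))) (Z ^ 13 * y) θ Z hw
            (fun s => totalDegree_dd i₁ _ (totalDegree_pd (hBL.2.1 s) i₀)) (by positivity) hθ
            (hTm B5 hB5A (hA64 _ (le_trans (by nlinarith only [hA]) hP5)) hPB5) (by linarith only [hC₁, hC₃, hC, hCZ])
            ((Real.exp_le_exp.2 (hmono C₂ (by linarith only [hC₁, hC₃, hC]))).trans hexp)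
            ((hmono C₂ (by linarith only [hC₁, hC₃, hC])).trans hCJ) (fun ω hω => by
              have hsd : (slam F w ω).1.2 = F.d ω := rfl
              rw [hsd, eval_dd, cov_vl hc]
              have c3 := (cA ω (hB5A ω hω)).2.2
              have h1 := c3 i₁ i₀
              have h2 := mul_le_of_one (hd0 ω) (c3 i₀ i₀)
              have h3 := mul_le_of_one (hdN ω) (c3 iN i₀)
              obtain ⟨h4, h5⟩ := s5 ω hω
              have h6 := mul_le_of_one (hd0 ω) h5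
              have h7 := (s4 ω (hB54 ω hω)).2.1
              rw [hbs ω i₀ iN] at h7
              have h8 := mul_le_of_one (hdN ω) h7
              rw [mul_sub] at h2 h3
              rw [abs_le] at h1 h2 h3 h4 h6 h8 ⊢
              constructor <;> linarith only [hy, hκy, f3, f4, f6, f7, f8, f12, f13, h1, h2, h3, h4, h6, h8, h1.1, h1.2, h2.1, h2.2, h3.1, h3.2, h4.1, h4.2, h6.1, h6.2,
                h8.1, h8.2])
          exact by
           have hB6A := hB65.trans hB5A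
           refine ⟨B6, hB6A, by linarith only [hP5, hPB5, hP6], fun y => g1 i₁ J G y i₁, fun y => g1 i₁ J G y i₀,
             fun s => (ql i₁ w s (pderiv i₀ (H s))).eval 0, fun ω hω => ⟨?_, ?_, ?_⟩⟩
           · have h1 := (cA ω (hB6A ω hω)).1 i₀
             rw [ha] at h1
             exact h1
           · have hω4 := hB54 ω (hB65 ω hω)
             have hω2 := hB32 ω (hB43 ω hω4)
             have h1 := r1 ω (hB21 ω hω2)
             have h2 : |a ω iN| ≤ γ := by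
               rw [hB2] at hω2
               exact (not_le.1 hω2.2).le
             have h3 : |a ω iN * F.d ω iN| ≤ γ := by
               rw [mul_comm]
               exact mul_le_of_one (hdN ω) h2
             have e1 : ∀ j, g1 i₁ J G (Fam.pt F ω) j = a ω j := fun j => by rw [ha]
             beta_reduce
             rw [e1, e1]
             rw [abs_le] at h1 h3 ⊢
             constructor <;> linarith only [hy, hγy, hκy, f3, f4, f6, f7, f8, f12, f13, f14, f15, h1, h3, h1.1, h1.2, h3.1, h3.2]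
           · have h1 := (cA ω (hB6A ω hω)).2.1 i₀
             have h2 := (hB6 ω hω).1
             have h2w1 : (1 : ℝ) / 2 ^ w ≤ 1 := by
               rw [div_le_one h2w0]
               exact one_le_pow₀ (by norm_num)
             have h3 := poly_mvt (p := ql i₁ w (slam F w ω) (pderiv i₀ (H (slam F w ω))))
               (M := Z ^ 14 * y) (fun τ hτ => by
                 rw [der_ql, Polynomial.eval_mul, Polynomial.eval_C]
                 refine mul_le_of_one ?_ ?_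
                 · rw [abs_of_pos (by positivity)]
                   exact h2w1
                 · refine (h2 τ hτ).trans (le_of_eq ?_)
                   ring) (rt_mem F w ω)
             rw [eval_ql_rt F i₁ hw] at h3
             have e1 : g1 i₁ J G (Fam.pt F ω) i₀ = a ω i₀ := by rw [ha]
             beta_reduce
             rw [e1]
             rw [abs_le] at h1 h3 ⊢
             constructor <;> linarith only [hy, hκy, f3, f4, f6, f7, f8, f12, f13, f14, f15, h1, h3, h1.1, h1.2, h3.1, h3.2]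

end Pool.PZ.Zrt
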