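import Pool.Agent.H74.PZ.Line

/-!
# Row ZRT: fans near lines, the derivatives at one sample
-/

set_option autoImplicit false

namespace Pool.PZ.Zrt

open Finset MvPolynomial
open Pool.Agent.H49.Ent Pool.Agent.H32.Dense Pool.STK Pool.KA Pool.KSAT Pool.K2S Pool.PB
open Pool.PB.Trl Pool.FLF Pool.Agent.H39.BFL Pool.BFL

theorem cov_ne {i₀ iu iN : Fin 3} (h : ∀ j : Fin 3, j = i₀ ∨ j = iu ∨ j = iN) :
    i₀ ≠ iu ∧ i₀ ≠ iN ∧ iu ≠ iN := by
  revert i₀ iu iN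
  decide

theorem cov_sum {i₀ iu iN : Fin 3} (h : ∀ j : Fin 3, j = i₀ ∨ j = iu ∨ j = iN)
    (f : Fin 3 → ℝ) : ∑ j, f j = f iu + f i₀ + f iN := by
  obtain ⟨h1, h2, h3⟩ := cov_ne h
  have e : (Finset.univ : Finset (Fin 3)) = {iu, i₀, iN} := by
    ext j
    simp only [Finset.mem_univ, Finset.mem_insert, Finset.mem_singleton, true_iff]
    rcases h j with h | h | h
    · exact Or.inr (Or.inl h)
    · exact Or.inl h
    · exact Or.inr (Or.inr h)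
  rw [e, Finset.sum_insert, Finset.sum_insert, Finset.sum_singleton]
  · ring
  · simpa using h2
  · simp only [Finset.mem_insert, Finset.mem_singleton, not_or]
    exact ⟨Ne.symm h1, h3⟩

/-- **Fans near lines**: two independent affine relations. -/
theorem lin_fan {Ω U : Type} {i₀ iu iN : Fin 3} (hc : ∀ j : Fin 3, j = i₀ ∨ j = iu ∨ j = iN)
    (pt : Ω → U) (d : Ω → Fin 3 → ℝ) (E : Ω → Prop) (n s t a a₀ aN : U → ℝ) {α ε M ρ K : ℝ}
    (hM : 0 < M) (hρ0 : 0 ≤ ρ) (hρ : α + K * (ε / M) ≤ ρ) (hρ' : ε / M ≤ ρ)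
    (h : ∀ ω, E ω → |s (pt ω)| ≤ K ∧ |t (pt ω)| ≤ K ∧
      |d ω iu - n (pt ω) - s (pt ω) * d ω i₀ - t (pt ω) * d ω iN| ≤ α ∧
      |a (pt ω) + a₀ (pt ω) * d ω i₀ + aN (pt ω) * d ω iN| ≤ ε ∧
      (M ≤ |a₀ (pt ω)| ∨ M ≤ |aN (pt ω)|)) : PlU 1 ρ pt d E := by
  classical
  obtain ⟨n1, n2, n3⟩ := cov_ne hc
  refine ⟨fun y => if M ≤ |aN y| then
    (fun j => if j = i₀ then 0 else if j = iN then -(a y / aN y) else n y - t y * (a y / aN y),
      fun _ j => if j = i₀ then 1 else if j = iN then -(a₀ y / aN y)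
        else s y - t y * (a₀ y / aN y)) else
    (fun j => if j = i₀ then -(a y / a₀ y) else if j = iN then 0 else n y - s y * (a y / a₀ y),
      fun _ j => if j = i₀ then -(aN y / a₀ y) else if j = iN then 1
        else t y - s y * (aN y / a₀ y)), fun ω hω => ?_⟩
  obtain ⟨h1, h2, h3, h4, h5⟩ := h ω hω
  obtain ⟨y, hy⟩ : ∃ y, y = pt ω := ⟨_, rfl⟩
  rw [← hy] at h1 h2 h3 h4 h5 ⊢
  beta_reduce
  by_cases hN : M ≤ |aN y|
  · rw [if_pos hN]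
    have hN0 : aN y ≠ 0 := fun h0 => by
      rw [h0, abs_zero] at hN
      linarith only [hM, hN]
    have he : |d ω iN - (-(a y / aN y) - a₀ y / aN y * d ω i₀)| ≤ ε / M := by
      have e1 : d ω iN - (-(a y / aN y) - a₀ y / aN y * d ω i₀) =
          (a y + a₀ y * d ω i₀ + aN y * d ω iN) / aN y := by
        field_simp
        ring
      rw [e1, abs_div]
      exact div_le_div₀ (le_trans (abs_nonneg _) h4) h4 hM hN
    refine ⟨fun _ => d ω i₀, fun j => ?_⟩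
    rw [Fin.sum_univ_one]
    simp only
    rcases hc j with hj | hj | hj
    · subst hj
      simp only [if_true]
      rw [show d ω j - 0 - d ω j * 1 = 0 by ring, abs_zero]
      exact hρ0
    · subst hj
      rw [if_neg (Ne.symm n1), if_neg n3, if_neg (Ne.symm n1), if_neg n3]
      have e2 : d ω j - (n y - t y * (a y / aN y)) - d ω i₀ * (s y - t y * (a₀ y / aN y)) =
          (d ω j - n y - s y * d ω i₀ - t y * d ω iN) +
            t y * (d ω iN - (-(a y / aN y) - a₀ y / aN y * d ω i₀)) := by ring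
      rw [e2]
      refine (abs_add_le _ _).trans (le_trans ?_ hρ)
      rw [abs_mul]
      exact add_le_add h3 (mul_le_mul h2 he (abs_nonneg _) ((abs_nonneg _).trans h2))
    · subst hj
      rw [if_neg (Ne.symm n2), if_pos rfl, if_neg (Ne.symm n2), if_pos rfl]
      refine le_trans (le_of_eq ?_) (he.trans hρ')
      congr 1
      ring
  · rw [if_neg hN]
    have hM0 : M ≤ |a₀ y| := h5.resolve_right hN
    have hN0 : a₀ y ≠ 0 := fun h0 => by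
      rw [h0, abs_zero] at hM0
      linarith only [hM, hM0]
    have he : |d ω i₀ - (-(a y / a₀ y) - aN y / a₀ y * d ω iN)| ≤ ε / M := by
      have e1 : d ω i₀ - (-(a y / a₀ y) - aN y / a₀ y * d ω iN) =
          (a y + a₀ y * d ω i₀ + aN y * d ω iN) / a₀ y := by
        field_simp
        ring
      rw [e1, abs_div]
      exact div_le_div₀ (le_trans (abs_nonneg _) h4) h4 hM hM0
    refine ⟨fun _ => d ω iN, fun j => ?_⟩
    rw [Fin.sum_univ_one]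
    simp only
    rcases hc j with hj | hj | hj
    · subst hj
      simp only [if_true]
      refine le_trans (le_of_eq ?_) (he.trans hρ')
      congr 1
      ring
    · subst hj
      rw [if_neg (Ne.symm n1), if_neg n3, if_neg (Ne.symm n1), if_neg n3]
      have e2 : d ω j - (n y - s y * (a y / a₀ y)) - d ω iN * (t y - s y * (aN y / a₀ y)) =
          (d ω j - n y - s y * d ω i₀ - t y * d ω iN) +
            s y * (d ω i₀ - (-(a y / a₀ y) - aN y / a₀ y * d ω iN)) := by ring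
      rw [e2]
      refine (abs_add_le _ _).trans (le_trans ?_ hρ)
      rw [abs_mul]
      exact add_le_add h3 (mul_le_mul h1 he (abs_nonneg _) ((abs_nonneg _).trans h1))
    · subst hj
      rw [if_neg (Ne.symm n2), if_pos rfl, if_neg (Ne.symm n2), if_pos rfl]
      rw [show d ω j - 0 - d ω j * 1 = 0 by ring, abs_zero]
      exact hρ0

/-! ### Remez inequality for functions of the window -/

variable {m J : ℕ}

/-- A polynomial label which is small at the samples is small on the base lines, and so is its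
derivative along the line. -/
theorem rem_lab (m K : ℕ) : ∃ C : ℝ, 1 ≤ C ∧ ∀ (J : ℕ) (F : Fam m J) (i₁ : Fin m)
    (A : F.Ω → Prop) (hA : 0 < Pe F.p A) (w : ℕ)
    (Q : ((Fin m → ℝ) × (Fin m → ℝ)) × F.ζ × ℕ → MvPolynomial (Fin m) ℝ) (S θ Z : ℝ),
    w ≤ J → (∀ s, (Q s).totalDegree ≤ K) → 0 < S → 0 ≤ θ → (Fam.sub F A hA).Tm θ →
    C ≤ Z → Real.exp (C * (θ + 1)) ≤ Z → C * (θ + 1) ≤ ((J : ℝ) - w) * Real.log 2 →
    (∀ ω, A ω → |eval (bp F i₁ ω) (Q (slam F w ω))| ≤ S) →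
    ∃ B : F.Ω → Prop, Sub B A ∧ Pe F.p A / 2 ≤ Pe F.p B ∧ ∀ ω, B ω →
      (∀ τ ∈ Set.Icc (0 : ℝ) 1, |(ql i₁ w (slam F w ω) (Q (slam F w ω))).eval τ| ≤ Z * S) ∧
      |eval (bp F i₁ ω) (dd i₁ (F.d ω) (Q (slam F w ω)))| ≤ 2 ^ w * (Z ^ 2 * S) := by
  obtain ⟨C₁, hC₁, hrem⟩ := rem_ev (m := m) K
  obtain ⟨C₂, hC₂, hmk⟩ := Pool.Agent.H40.BFL.unit_markov K
  refine ⟨max C₁ C₂, hC₁.trans (le_max_left _ _), ?_⟩
  intro J F i₁ A hA w Q S θ Z hw hQ hS hθ hTm hCZ hexp hC hAQ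
  have hC1 : C₁ ≤ max C₁ C₂ := le_max_left _ _
  have hC2 : C₂ ≤ Z := (le_max_right _ _).trans hCZ
  have hmono : C₁ * (θ + 1) ≤ max C₁ C₂ * (θ + 1) := mul_le_mul_of_nonneg_right hC1 (by linarith only [hθ])
  obtain ⟨B, hBA, hPB, hB⟩ := hrem J F A hA w (fun s => ql i₁ w s (Q s)) S θ hw
    (fun s => natDegree_ql i₁ w s (hQ s)) hS hθ hTm (hmono.trans hC) (fun ω hω => by
      rw [eval_ql_rt F i₁ hw]
      exact hAQ ω hω)
  have hZ1 : 1 ≤ Z := hC₂.trans hC2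
  refine ⟨B, hBA, hPB, fun ω hω => ?_⟩
  have h1 : ∀ τ ∈ Set.Icc (0 : ℝ) 1,
      |(ql i₁ w (slam F w ω) (Q (slam F w ω))).eval τ| ≤ Z * S := fun τ hτ =>
    (hB ω hω τ hτ).trans (mul_le_mul_of_nonneg_right ((Real.exp_le_exp.2 hmono).trans hexp) hS.le)
  refine ⟨h1, ?_⟩
  have h2 := hmk _ (Z * S) (natDegree_ql i₁ w (slam F w ω) (hQ _)) h1 (rt F w ω) (rt_mem F w ω)
  rw [der_ql, Polynomial.eval_mul, Polynomial.eval_C, eval_ql_rt F i₁ hw, abs_mul,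
    abs_of_pos (by positivity : (0 : ℝ) < 1 / 2 ^ w)] at h2
  have h3 : |eval (bp F i₁ ω) (dd i₁ (slam F w ω).1.2 (Q (slam F w ω)))| ≤
      2 ^ w * (C₂ * (Z * S)) := by
    have h4 : (0 : ℝ) < 2 ^ w := by positivity
    rw [one_div, inv_mul_le_iff₀ h4] at h2
    exact h2
  refine h3.trans (mul_le_mul_of_nonneg_left ?_ (by positivity))
  calc C₂ * (Z * S) ≤ Z * (Z * S) := mul_le_mul_of_nonneg_right hC2 (by positivity)
    _ = Z ^ 2 * S := by ring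

/-- The data of a ball label at full resolution. -/
def BL (F : Fam m J) (i₁ : Fin m) (K w P : ℕ)
    (G : (Fin m → ℤ) × (ℕ × F.ζ) → MvPolynomial (Fin m) ℝ)
    (H : ((Fin m → ℝ) × (Fin m → ℝ)) × F.ζ × ℕ → MvPolynomial (Fin m) ℝ) (A : F.Ω → Prop) : Prop :=
  (∀ y, (G y).totalDegree ≤ K) ∧ (∀ s, (H s).totalDegree ≤ K) ∧ ∀ ω, A ω →
    |F.x ω i₁ - eval (bp F i₁ ω) (G (Fam.pt F ω))| ≤ 1 / 2 ^ P ∧
    ∀ b : Fin m → ℝ, (∀ j, |b j - bp F i₁ ω j| ≤ 1 / 2 ^ w) →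
      (∀ j, |eval b (pderiv j (G (Fam.pt F ω)))| ≤ 2 * m) ∧
      |eval b (G (Fam.pt F ω)) - eval b (H (slam F w ω))| ≤ 1 / 2 ^ P

/-- First derivatives of the point polynomial at the rounded base position. -/
noncomputable def g1 {ζ : Type} (i₁ : Fin m) (J : ℕ)
    (G : (Fin m → ℤ) × (ℕ × ζ) → MvPolynomial (Fin m) ℝ) (y : (Fin m → ℤ) × (ℕ × ζ))
    (j : Fin m) : ℝ := eval (bh i₁ J J y) (pderiv j (G y))

/-- Second derivatives of the point polynomial at the rounded base position. -/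
noncomputable def g2 {ζ : Type} (i₁ : Fin m) (J : ℕ)
    (G : (Fin m → ℤ) × (ℕ × ζ) → MvPolynomial (Fin m) ℝ) (y : (Fin m → ℤ) × (ℕ × ζ))
    (i j : Fin m) : ℝ := eval (bh i₁ J J y) (pderiv i (pderiv j (G y)))

theorem g2_symm {ζ : Type} (i₁ : Fin m) (J : ℕ)
    (G : (Fin m → ℤ) × (ℕ × ζ) → MvPolynomial (Fin m) ℝ) (y : (Fin m → ℤ) × (ℕ × ζ))
    (i j : Fin m) : g2 i₁ J G y i j = g2 i₁ J G y j i := by
  unfold g2
  rw [pd_comm]

/-- The derivatives of the line polynomial and of the point polynomial. -/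
theorem lab_cmp (m K : ℕ) : ∃ C : ℝ, 1 ≤ C ∧ ∀ (J : ℕ) (F : Fam m J) (i₁ : Fin m) (w P : ℕ)
    (G : (Fin m → ℤ) × (ℕ × F.ζ) → MvPolynomial (Fin m) ℝ)
    (H : ((Fin m → ℝ) × (Fin m → ℝ)) × F.ζ × ℕ → MvPolynomial (Fin m) ℝ) (A : F.Ω → Prop),
    w ≤ J → BL F i₁ K w P G H A → ∀ ω, A ω →
    (∀ j, |g1 i₁ J G (Fam.pt F ω) j| ≤ 2 * m) ∧
    (∀ j, |eval (bp F i₁ ω) (pderiv j (H (slam F w ω))) - g1 i₁ J G (Fam.pt F ω) j| ≤
      C * 2 ^ w * (1 / 2 ^ P + 1 / 2 ^ J)) ∧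
    ∀ i j, |eval (bp F i₁ ω) (pderiv i (pderiv j (H (slam F w ω)))) -
      g2 i₁ J G (Fam.pt F ω) i j| ≤ C * 4 ^ w * (1 / 2 ^ P + 1 / 2 ^ J) := by
  obtain ⟨C, hC, hcmp⟩ := cmp_der m K
  have hm : (0 : ℝ) ≤ m := Nat.cast_nonneg m
  refine ⟨C * (2 * m + 1), by nlinarith only [hC], ?_⟩
  intro J F i₁ w P G H A hw hBL ω hω
  obtain ⟨hG, hH, hA⟩ := hBL
  obtain ⟨-, hb⟩ := hA ω hω
  have hJw : (1 : ℝ) / 2 ^ J ≤ 1 / 2 ^ w := inv_mono hw
  have hnear : ∀ j, |bh i₁ J J (Fam.pt F ω) j - bp F i₁ ω j| ≤ 1 / 2 ^ J :=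
    fun j => bh_near F i₁ J ω j
  obtain ⟨h1, h2⟩ := hcmp (G (Fam.pt F ω)) (H (slam F w ω)) (bp F i₁ ω)
    (bh i₁ J J (Fam.pt F ω)) w (2 * m) (1 / 2 ^ P) (1 / 2 ^ J) (hG _) (hH _) hb (by positivity)
    hJw hnear
  have hP0 : (0 : ℝ) < 1 / 2 ^ P := by positivity
  have hJ0 : (0 : ℝ) < 1 / 2 ^ J := by positivity
  have hle : 1 / 2 ^ P + 2 * (m : ℝ) * (1 / 2 ^ J) ≤ (2 * m + 1) * (1 / 2 ^ P + 1 / 2 ^ J) := by
    nlinarith only [hJ0, hP0]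
  refine ⟨fun j => (hb _ fun j => (hnear j).trans hJw).1 j, fun j => (h1 j).trans ?_,
    fun i j => (h2 i j).trans ?_⟩
  · calc C * 2 ^ w * (1 / 2 ^ P + 2 * (m : ℝ) * (1 / 2 ^ J)) ≤
          C * 2 ^ w * ((2 * m + 1) * (1 / 2 ^ P + 1 / 2 ^ J)) :=
        mul_le_mul_of_nonneg_left hle (by positivity)
      _ = _ := by ring
  · calc C * 4 ^ w * (1 / 2 ^ P + 2 * (m : ℝ) * (1 / 2 ^ J)) ≤
          C * 4 ^ w * ((2 * m + 1) * (1 / 2 ^ P + 1 / 2 ^ J)) :=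
        mul_le_mul_of_nonneg_left hle (by positivity)
      _ = _ := by ring

theorem vl_le (i₁ : Fin m) {d : Fin m → ℝ} (hd : ∀ j, |d j| ≤ 1) (j : Fin m) :
    |vl i₁ d j| ≤ 1 := by
  unfold vl
  by_cases h : j = i₁
  · rw [h, Function.update_self, abs_one]
  · rw [Function.update_of_ne h]
    exact hd j

theorem sum_vl_le (i₁ : Fin m) {d : Fin m → ℝ} (hd : ∀ j, |d j| ≤ 1) {f : Fin m → ℝ} {M : ℝ}
    (hf : ∀ j, |f j| ≤ M) : |∑ j, vl i₁ d j * f j| ≤ m * M := by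
  refine (Finset.abs_sum_le_sum_abs _ _).trans ?_
  calc ∑ j, |vl i₁ d j * f j| ≤ ∑ _j : Fin m, M := by
        refine Finset.sum_le_sum fun j _ => ?_
        rw [abs_mul]
        calc |vl i₁ d j| * |f j| ≤ 1 * M :=
              mul_le_mul (vl_le i₁ hd j) (hf j) (abs_nonneg _) zero_le_one
          _ = M := one_mul _
    _ = m * M := by rw [Finset.sum_const, Finset.card_univ, Fintype.card_fin, nsmul_eq_mul]

/-- **The graph**: on one half of the event the fans are graphs with the slopes of the point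
polynomial, and the second derivative along the line is small. -/
theorem rem_graph (m K : ℕ) (hK : 1 ≤ K) : ∃ C : ℝ, 1 ≤ C ∧ ∀ (J : ℕ) (F : Fam m J)
    (i₁ : Fin m) (w P : ℕ) (G : (Fin m → ℤ) × (ℕ × F.ζ) → MvPolynomial (Fin m) ℝ)
    (H : ((Fin m → ℝ) × (Fin m → ℝ)) × F.ζ × ℕ → MvPolynomial (Fin m) ℝ) (A : F.Ω → Prop)
    (hA : 0 < Pe F.p A) (θ Z : ℝ),
    w ≤ J → BL F i₁ K w P G H A → 0 ≤ θ → (Fam.sub F A hA).Tm θ →
    C ≤ Z → Real.exp (C * (θ + 1)) ≤ Z → C * (θ + 1) ≤ ((J : ℝ) - w) * Real.log 2 →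
    ∃ B : F.Ω → Prop, Sub B A ∧ Pe F.p A / 2 ≤ Pe F.p B ∧ ∀ ω, B ω →
      |F.d ω i₁ - ∑ j, vl i₁ (F.d ω) j * g1 i₁ J G (Fam.pt F ω) j| ≤
        Z ^ 2 * (2 ^ w * (1 / 2 ^ P + 1 / 2 ^ J)) ∧
      |∑ i, vl i₁ (F.d ω) i * ∑ j, vl i₁ (F.d ω) j * g2 i₁ J G (Fam.pt F ω) i j| ≤
        Z ^ 2 * (4 ^ w * (1 / 2 ^ P + 1 / 2 ^ J)) := by
  obtain ⟨C₁, hC₁, hrem⟩ := rem_ev (m := m) K
  obtain ⟨C₂, hC₂, hmk⟩ := Pool.Agent.H40.BFL.unit_markov K
  obtain ⟨C₃, hC₃, hcmp⟩ := lab_cmp m K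
  have hm : (0 : ℝ) ≤ m := Nat.cast_nonneg m
  obtain ⟨C, hC⟩ : ∃ C, C = max C₁ (2 * C₂ ^ 2 + m * C₃ + m ^ 2 * C₃) := ⟨_, rfl⟩
  refine ⟨C, by rw [hC]; exact hC₁.trans (le_max_left _ _), ?_⟩
  intro J F i₁ w P G H A hA θ Z hw hBL hθ hTm hCZ hexp hCJ
  have hC1 : C₁ ≤ C := by rw [hC]; exact le_max_left _ _
  have hC2 : 2 * C₂ ^ 2 + m * C₃ + m ^ 2 * C₃ ≤ Z := by
    refine le_trans ?_ hCZ
    rw [hC]
    exact le_max_right _ _
  have hmono : C₁ * (θ + 1) ≤ C * (θ + 1) := mul_le_mul_of_nonneg_right hC1 (by linarith only [hθ])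
  have hmC : 0 ≤ (m : ℝ) * C₃ := by positivity
  have hmC2 : 0 ≤ (m : ℝ) ^ 2 * C₃ := by positivity
  have hC2sq : C₂ ≤ C₂ ^ 2 := by nlinarith only [hC₂]
  have hZ1 : 1 ≤ Z := by linarith only [hC₂, hC2, hmC, hmC2, hC2sq]
  have hZ0 : 0 < Z := by linarith only [hC₂, hC2, hmC, hmC2, hC2sq]
  obtain ⟨hG, hH, hAG⟩ := hBL
  obtain ⟨B, hBA, hPB, hB⟩ := hrem J F A hA w (fun s => qs i₁ w H s) (2 / 2 ^ P) θ hw
    (fun s => natDegree_qs i₁ w hK H s (hH s)) (by positivity) hθ hTm (hmono.trans hCJ)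
    (fun ω hω => by
      rw [eval_qs, ← t_rt F hw, es_at]
      obtain ⟨h1, h2⟩ := hAG ω hω
      have h3 := (h2 (bp F i₁ ω) fun j => by rw [sub_self, abs_zero]; positivity).2
      have h4 : (2 : ℝ) / 2 ^ P = 1 / 2 ^ P + 1 / 2 ^ P := by ring
      rw [h4]
      rw [abs_le] at h1 h3 ⊢
      constructor <;> linarith only [h1, h3, h1.1, h1.2, h3.1, h3.2])
  refine ⟨B, hBA, hPB, fun ω hω => ?_⟩
  obtain ⟨s, hs⟩ : ∃ s, s = slam F w ω := ⟨_, rfl⟩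
  have hsd : s.1.2 = F.d ω := by rw [hs]; rfl
  obtain ⟨M, hM⟩ : ∃ M, M = Z * (2 / 2 ^ P) := ⟨_, rfl⟩
  have h1 : ∀ τ ∈ Set.Icc (0 : ℝ) 1, |(qs i₁ w H s).eval τ| ≤ M := fun τ hτ => by
    rw [hs, hM]
    exact (hB ω hω τ hτ).trans (mul_le_mul_of_nonneg_right ((Real.exp_le_exp.2 hmono).trans hexp)
      (by positivity))
  have hqd := natDegree_qs i₁ w hK H s (hH s)
  have h2 := hmk _ M hqd h1
  have h3 := hmk _ (C₂ * M) ((Polynomial.natDegree_derivative_le _).trans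
    ((Nat.sub_le _ _).trans hqd)) h2 (rt F w ω) (rt_mem F w ω)
  have h2' := h2 (rt F w ω) (rt_mem F w ω)
  have h2w : (0 : ℝ) < 2 ^ w := by positivity
  have h4w : (4 : ℝ) ^ w = 2 ^ w * 2 ^ w := by
    rw [← mul_pow]
    norm_num
  -- first derivative
  rw [der_qs, Polynomial.eval_mul, Polynomial.eval_C, Polynomial.eval_sub, Polynomial.eval_C, hs,
    eval_ql_rt F i₁ hw, ← hs, abs_mul, abs_of_pos (by positivity : (0 : ℝ) < 1 / 2 ^ w), one_div,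
    inv_mul_le_iff₀ h2w, hsd] at h2'
  -- second derivative
  rw [der_der_qs, Polynomial.eval_neg, abs_neg, Polynomial.eval_mul, Polynomial.eval_C, hs,
    eval_ql_rt F i₁ hw, ← hs, abs_mul,
    abs_of_pos (by positivity : (0 : ℝ) < 1 / 2 ^ w * (1 / 2 ^ w)), hsd] at h3
  have h3' : |eval (bp F i₁ ω) (dd i₁ (F.d ω) (dd i₁ (F.d ω) (H s)))| ≤
      4 ^ w * (C₂ * (C₂ * M)) := by
    have e1 : 1 / (2 : ℝ) ^ w * (1 / 2 ^ w) = (4 ^ w)⁻¹ := by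
      rw [h4w, mul_inv]
      simp
    rw [e1, inv_mul_le_iff₀ (by positivity)] at h3
    exact h3
  obtain ⟨-, c1, c2⟩ := hcmp J F i₁ w P G H A hw ⟨hG, hH, hAG⟩ ω (hBA ω hω)
  rw [← hs] at c1 c2
  obtain ⟨q, hq⟩ : ∃ q : ℝ, q = 1 / 2 ^ P + 1 / 2 ^ J := ⟨_, rfl⟩
  rw [← hq] at c1 c2 ⊢
  have hq0 : 0 < q := by rw [hq]; positivity
  have hPq : (1 : ℝ) / 2 ^ P ≤ q := by
    rw [hq]
    have : (0 : ℝ) < 1 / 2 ^ J := by positivity
    linarith only [this]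
  have hMq : M ≤ 2 * Z * q := by
    rw [hM]
    have : Z * (2 / 2 ^ P) = 2 * Z * (1 / 2 ^ P) := by ring
    rw [this]
    exact mul_le_mul_of_nonneg_left hPq (by positivity)
  have hM0 : 0 ≤ M := by rw [hM]; positivity
  constructor
  · -- first derivative
    have e1 : F.d ω i₁ - ∑ j, vl i₁ (F.d ω) j * g1 i₁ J G (Fam.pt F ω) j =
        (F.d ω i₁ - eval (bp F i₁ ω) (dd i₁ (F.d ω) (H s))) +
        ∑ j, vl i₁ (F.d ω) j * (eval (bp F i₁ ω) (pderiv j (H s)) -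
          g1 i₁ J G (Fam.pt F ω) j) := by
      rw [eval_dd]
      simp only [mul_sub, Finset.sum_sub_distrib]
      ring
    rw [e1]
    refine (abs_add_le _ _).trans ?_
    have e2 := sum_vl_le i₁ (F.dir ω) c1
    have e3 : 2 ^ w * (C₂ * M) ≤ 2 ^ w * (C₂ * (2 * Z * q)) :=
      mul_le_mul_of_nonneg_left (mul_le_mul_of_nonneg_left hMq (by linarith only [hC₂])) h2w.le
    have e4 : 2 ^ w * (C₂ * (2 * Z * q)) + m * (C₃ * 2 ^ w * q) =
        (2 * C₂ * Z + m * C₃) * (2 ^ w * q) := by ring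
    have e5 : 2 * C₂ * Z + m * C₃ ≤ Z ^ 2 := by nlinarith only [hC₂, hC2, hmC2, hC₁, hmC, hC2sq, hCZ, hC1]
    have e6 : (2 * C₂ * Z + m * C₃) * (2 ^ w * q) ≤ Z ^ 2 * (2 ^ w * q) :=
      mul_le_mul_of_nonneg_right e5 (by positivity)
    linarith only [h2', e2, e3, e6]
  · have e1 : ∑ i, vl i₁ (F.d ω) i * ∑ j, vl i₁ (F.d ω) j * g2 i₁ J G (Fam.pt F ω) i j =
        eval (bp F i₁ ω) (dd i₁ (F.d ω) (dd i₁ (F.d ω) (H s))) -
        ∑ i, vl i₁ (F.d ω) i * ∑ j, vl i₁ (F.d ω) j *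
          (eval (bp F i₁ ω) (pderiv i (pderiv j (H s))) - g2 i₁ J G (Fam.pt F ω) i j) := by
      rw [eval_dd_dd]
      simp only [mul_sub, Finset.sum_sub_distrib]
      ring
    rw [e1]
    refine (abs_sub _ _).trans ?_
    have e2 := sum_vl_le i₁ (F.dir ω) (f := fun i => ∑ j, vl i₁ (F.d ω) j *
      (eval (bp F i₁ ω) (pderiv i (pderiv j (H s))) - g2 i₁ J G (Fam.pt F ω) i j))
      (M := m * (C₃ * 4 ^ w * q)) fun i => sum_vl_le i₁ (F.dir ω) fun j => c2 i j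
    have e3 : 4 ^ w * (C₂ * (C₂ * M)) ≤ 4 ^ w * (C₂ * (C₂ * (2 * Z * q))) :=
      mul_le_mul_of_nonneg_left (mul_le_mul_of_nonneg_left (mul_le_mul_of_nonneg_left hMq
        (by linarith only [hC₂])) (by linarith only [hC₂])) (by positivity)
    have e4 : 4 ^ w * (C₂ * (C₂ * (2 * Z * q))) + m * (m * (C₃ * 4 ^ w * q)) =
        (2 * C₂ ^ 2 * Z + m ^ 2 * C₃) * (4 ^ w * q) := by ring
    have e5 : 2 * C₂ ^ 2 * Z + m ^ 2 * C₃ ≤ Z ^ 2 := by nlinarith only [hC2, hmC, hC₁, hmC2, hCZ, hC1]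
    have e6 : (2 * C₂ ^ 2 * Z + m ^ 2 * C₃) * (4 ^ w * q) ≤ Z ^ 2 * (4 ^ w * q) :=
      mul_le_mul_of_nonneg_right e5 (by positivity)
    linarith only [h3', e2, e3, e6]

end Pool.PZ.Zrt
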