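import Pool.Agent.H75.S6C.SN

/-!
# The straightness of the fans bounds the straightness in the direction of the normals
-/

set_option autoImplicit false

namespace Pool.S6C

open Finset Real
open Pool.Agent.H49.Ent Pool.Agent.H32.Dense Pool.STK Pool.KA Pool.KSAT Pool.K2S Pool.PB Pool.KS6

/-- The velocities are straight in the direction of every plank, if the fans are straight. -/
theorem fn_straight {ρ eu eN nu nN c s x₀ xu xN : ℝ} (hs : |s| ≤ 4)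
    (hu : |xu - eu * x₀ - nu| ≤ ρ) (hN : |xN - eN * x₀ - nN| ≤ ρ) :
    |(c * x₀ + s * xu + xN) - (s * nu + nN) - (c + s * eu + eN) * x₀| ≤ 5 * ρ := by
  have e : (c * x₀ + s * xu + xN) - (s * nu + nN) - (c + s * eu + eN) * x₀ =
      s * (xu - eu * x₀ - nu) + (xN - eN * x₀ - nN) := by ring
  rw [e]
  refine (abs_add_le _ _).trans ?_
  rw [abs_mul]
  have h1 : |s| * |xu - eu * x₀ - nu| ≤ 4 * ρ := mul_le_mul hs hu (abs_nonneg _) (by norm_num)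
  linarith

/-- **(PI_LE)** The straightness of the fans is at most the straightness in the direction of the
normals of any planks. -/
theorem pi_le_sn {S : PCl 3} {a R h₁ : ℝ} {i₀ : Fin 3} {c s₂ : ℝ} {r : ℝ → ℝ} {D : Set ℝ}
    {σ : ℝ → Row} (hC : Cs S a R h₁ i₀ c s₂ r D σ) {w s : ℚ} (hw0 : 0 ≤ w) (hw1 : w ≤ 1)
    (hs0 : 0 ≤ s) (hs1 : s ≤ 1) (hs : (s : ℝ) < (σ 1).th w) : (σ 1).pi ≤ (σ 1).sN w s := by
  have hN := hC.sN w s hw0 hw1 hs0 hs1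
  have hR1 := hC.row 1 one_pos le_rfl hC.D1
  have hpi1 : (σ 1).pi ≤ 1 := num_le_cap hC.ne zero_le_one hR1.pi
  refine le_of_forall_pos_le_add fun e he => ?_
  have key : (σ 1).pi - e ≤ (σ 1).sN w s := by
    refine num_ge hC.ne hN ?_
    by_cases hg : (σ 1).pi - e ≤ 0
    · exact Clp.of one_pos 0 fun _ _ _ _ _ => Or.inl hg
    push Not at hg
    obtain ⟨J₂, hJ₂⟩ := exists_nat_gt (8 / e)
    refine Clp.mono (J₂ := J₂) ((lab_clp hC hw0 hw1 (t := s) (by exact_mod_cast hs0) hs).and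
      (hR1.pi.1 (e / 2) (by linarith))) ?_
    rintro J hJ F A ⟨⟨iu, iN, hi, y, hI, ⟨φ, hφ⟩, hψ⟩, hL⟩
    rcases hL with hL | ⟨-, e', n', hL⟩
    · linarith
    have hJJ : ⌊(1 : ℝ) * J⌋₊ = J := by rw [one_mul, Nat.floor_natCast]
    rw [hJJ] at hL
    have hJ1 : 8 / e < J := hJ₂.trans_le (by exact_mod_cast hJ)
    have hJ8 : 8 < J * e := by rwa [div_lt_iff₀ he] at hJ1
    have hJ0 : (0 : ℝ) ≤ J := Nat.cast_nonneg J
    refine Or.inr ⟨by linarith, iu, iN, hi, y, hI, ⟨φ, hφ⟩, hψ,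
      fun u => (φ u).s * n' u iu + n' u iN, fun u => (φ u).c + (φ u).s * e' u iu + e' u iN,
      fun ω hω => ?_⟩
    beta_reduce
    rw [← hφ ω hω]
    have h1 := fn_straight (c := (y ω).c) (hI ω hω).s_le (hL ω hω iu) (hL ω hω iN)
    refine h1.trans ?_
    have e1 : (⌊((σ 1).pi - e) * J⌋₊ : ℝ) ≤ ((σ 1).pi - e) * J := Nat.floor_le (by positivity)
    have e2 : ((σ 1).pi - e / 2) * J < ⌊((σ 1).pi - e / 2) * J⌋₊ + 1 := Nat.lt_floor_add_one _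
    have e3 : ⌊((σ 1).pi - e) * J⌋₊ + 3 ≤ ⌊((σ 1).pi - e / 2) * J⌋₊ := by
      have h2 : (⌊((σ 1).pi - e) * J⌋₊ : ℝ) + 3 < ⌊((σ 1).pi - e / 2) * J⌋₊ + 1 := by nlinarith
      have h3 : ⌊((σ 1).pi - e) * J⌋₊ + 3 < ⌊((σ 1).pi - e / 2) * J⌋₊ + 1 := by exact_mod_cast h2
      omega
    have e4 : (1 : ℝ) / 2 ^ ⌊((σ 1).pi - e / 2) * J⌋₊ ≤ 1 / 2 ^ (⌊((σ 1).pi - e) * J⌋₊ + 3) :=
      inv_mono e3
    have e5 : (1 : ℝ) / 2 ^ (⌊((σ 1).pi - e) * J⌋₊ + 3) = 1 / 2 ^ ⌊((σ 1).pi - e) * J⌋₊ / 8 := by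
      rw [pow_add]
      field_simp
      norm_num
    have e6 : (0 : ℝ) < 1 / 2 ^ ⌊((σ 1).pi - e) * J⌋₊ := by positivity
    rw [e5] at e4
    linarith
  linarith

/-- **(PI_LE)** for the plank at the window `v₁`. -/
theorem pi_le_adm {S : PCl 3} {a R h₁ : ℝ} {i₀ : Fin 3} {c s₂ : ℝ} {r : ℝ → ℝ} {D : Set ℝ}
    {σ : ℝ → Row} (hC : Cs S a R h₁ i₀ c s₂ r D σ) {K : Set ℝ} {W : ℝ → ℝ} {v₁ t : ℚ} {e₁ : ℝ}
    (hA : Adm σ K W v₁ t e₁) (hv0 : 0 ≤ v₁) : (σ 1).pi ≤ (σ 1).sN v₁ t := by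
  have h1 : (t : ℝ) < 1 := hA.lt.trans hA.th1
  exact pi_le_sn hC hv0 hA.v1.le hA.t0.le (by exact_mod_cast h1.le) hA.lt

end Pool.S6C
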