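import Pool.Agent.H40.SLP.TrlA
import Pool.Agent.H50.PW.Det
import Pool.Agent.H96.PZ.Defs

/-!
# Row ZRT: polynomials

Chain rule for curves, Markov inequality on boxes, quadratic polynomials which are small on a set.
-/

set_option autoImplicit false

namespace Pool.PZ.Zrt

open Finset MvPolynomial

/-! ### The chain rule -/

theorem der_aeval {m : ℕ} (Q : MvPolynomial (Fin m) ℝ) (g : Fin m → Polynomial ℝ) :
    Polynomial.derivative (aeval g Q) =
      ∑ i, aeval g (pderiv i Q) * Polynomial.derivative (g i) := by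
  classical
  induction Q using MvPolynomial.induction_on with
  | C a =>
    have h1 : aeval g (C a : MvPolynomial (Fin m) ℝ) = Polynomial.C a := by
      rw [aeval_C]
      rfl
    rw [h1, Polynomial.derivative_C]
    symm
    refine Finset.sum_eq_zero fun i _ => ?_
    rw [pderiv_C, map_zero, zero_mul]
  | add p q hp hq =>
    rw [map_add, map_add, hp, hq, ← Finset.sum_add_distrib]
    refine Finset.sum_congr rfl fun i _ => ?_
    rw [map_add, map_add, add_mul]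
  | mul_X p j hp =>
    rw [map_mul, aeval_X, Polynomial.derivative_mul, hp, Finset.sum_mul]
    have h1 : aeval g p * Polynomial.derivative (g j) = ∑ i,
        (if i = j then aeval g p * Polynomial.derivative (g j) else 0) := by
      rw [Finset.sum_ite_eq' univ j]
      simp
    rw [h1, ← Finset.sum_add_distrib]
    refine Finset.sum_congr rfl fun i _ => ?_
    rw [pderiv_mul, map_add, map_mul, map_mul, aeval_X, add_mul]
    by_cases h : i = j
    · subst h
      rw [if_pos rfl, pderiv_X_self, map_one]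
      ring
    · rw [if_neg h, pderiv_X_of_ne (Ne.symm h), map_zero]
      ring

/-! ### Markov inequality on boxes -/

theorem totalDegree_pd {m K : ℕ} {Q : MvPolynomial (Fin m) ℝ} (h : Q.totalDegree ≤ K)
    (j : Fin m) : (pderiv j Q).totalDegree ≤ K :=
  (Pool.Agent.H50.PW.totalDegree_pderiv_le Q j).trans h

theorem box_markov (m K : ℕ) : ∃ C : ℝ, 1 ≤ C ∧ ∀ (Q : MvPolynomial (Fin m) ℝ)
    (x : Fin m → ℝ) (ρ M : ℝ), Q.totalDegree ≤ K → 0 < ρ →
    (∀ y : Fin m → ℝ, (∀ j, |y j - x j| ≤ ρ) → |eval y Q| ≤ M) →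
    ∀ y : Fin m → ℝ, (∀ j, |y j - x j| ≤ ρ) → ∀ j, |eval y (pderiv j Q)| ≤ C * M / ρ := by
  classical
  obtain ⟨C, hC, hmk⟩ := Pool.Agent.H40.BFL.mko_thm K
  refine ⟨C, hC, ?_⟩
  intro Q x ρ M hQ hρ hM y hy j
  have hM0 : 0 ≤ M := le_trans (abs_nonneg _) (hM y hy)
  obtain ⟨g, hg⟩ : ∃ g : Fin m → Polynomial ℝ,
      g = fun i => if i = j then Polynomial.X else Polynomial.C (y i) := ⟨_, rfl⟩
  have hgd : ∀ i, (g i).natDegree ≤ 1 := by
    intro i
    rw [hg]
    simp only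
    split_ifs
    · exact Polynomial.natDegree_X_le
    · rw [Polynomial.natDegree_C]
      exact Nat.zero_le _
  have hge : ∀ (R : MvPolynomial (Fin m) ℝ) (t : ℝ), (aeval g R).eval t =
      eval (Function.update y j t) R := by
    intro R t
    rw [Pool.KBX.eval_aeval_poly]
    congr 1
    congr 1
    funext i
    rw [hg]
    simp only
    by_cases h : i = j
    · rw [if_pos h, h, Function.update_self, Polynomial.eval_X]
    · rw [if_neg h, Function.update_of_ne h, Polynomial.eval_C]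
  have hder : (Polynomial.derivative (aeval g Q)).eval (y j) = eval y (pderiv j Q) := by
    rw [der_aeval, Polynomial.eval_finsetSum, Finset.sum_eq_single j]
    · rw [Polynomial.eval_mul, hge, Function.update_eq_self, hg]
      simp
    · intro i _ hi
      rw [Polynomial.eval_mul, hg]
      simp only
      rw [if_neg hi]
      simp
    · intro h
      exact absurd (Finset.mem_univ j) h
  have hyj := abs_le.mp (hy j)
  have h1 := hmk (aeval g Q) (x j - ρ) (2 * ρ) M (Pool.KBX.natDegree_aeval_le Q g hgd hQ)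
    (by linarith) (by
      intro t ht
      rw [hge]
      refine hM _ fun i => ?_
      by_cases h : i = j
      · rw [h, Function.update_self, abs_le]
        constructor <;> linarith [ht.1, ht.2]
      · rw [Function.update_of_ne h]
        exact hy i) (y j) ⟨by linarith [hyj.1], by linarith [hyj.2]⟩
  rw [hder] at h1
  refine h1.trans ?_
  rw [div_le_div_iff₀ (by linarith) hρ]
  have : 0 ≤ C * M * ρ := by positivity
  nlinarith

/-! ### Quadratic polynomials -/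

/-- Three points: the coefficients of a quadratic polynomial. -/
theorem quad_three {q0 q1 q2 x y z ε δ : ℝ} (hε : 0 ≤ ε) (hδ : 0 < δ)
    (hx : |x| ≤ 1) (hy : |y| ≤ 1) (hz : |z| ≤ 1)
    (hxy : δ < |y - x|) (hxz : δ < |z - x|) (hyz : δ < |z - y|)
    (h1 : |q0 + q1 * x + q2 * x ^ 2| ≤ ε) (h2 : |q0 + q1 * y + q2 * y ^ 2| ≤ ε)
    (h3 : |q0 + q1 * z + q2 * z ^ 2| ≤ ε) :
    |q0| ≤ 6 * ε / δ ^ 2 ∧ |q1| ≤ 6 * ε / δ ^ 2 ∧ |q2| ≤ 6 * ε / δ ^ 2 := by
  have n1 : y - x ≠ 0 := by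
    intro h
    rw [h, abs_zero] at hxy
    linarith
  have n2 : z - x ≠ 0 := by
    intro h
    rw [h, abs_zero] at hxz
    linarith
  have n3 : z - y ≠ 0 := by
    intro h
    rw [h, abs_zero] at hyz
    linarith
  obtain ⟨a, ha⟩ : ∃ a, a = q0 + q1 * x + q2 * x ^ 2 := ⟨_, rfl⟩
  obtain ⟨b, hb⟩ : ∃ b, b = q0 + q1 * y + q2 * y ^ 2 := ⟨_, rfl⟩
  obtain ⟨c, hc⟩ : ∃ c, c = q0 + q1 * z + q2 * z ^ 2 := ⟨_, rfl⟩
  rw [← ha] at h1
  rw [← hb] at h2
  rw [← hc] at h3
  have hδ2 : 0 < δ ^ 2 := by positivity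
  -- a term of the interpolation formula
  have term : ∀ a u v n : ℝ, |a| ≤ ε → δ < |u| → δ < |v| → |n| ≤ 2 →
      |a * n / (u * v)| ≤ 2 * ε / δ ^ 2 := by
    intro a u v n h4 h5 h6 h7
    rw [abs_div, abs_mul, abs_mul]
    refine div_le_div₀ (by positivity) ?_ hδ2 ?_
    · calc |a| * |n| ≤ ε * 2 := mul_le_mul h4 h7 (abs_nonneg _) hε
        _ = 2 * ε := by ring
    · rw [sq]
      exact mul_le_mul h5.le h6.le hδ.le (abs_nonneg _)
  have e2 : q2 = a * 1 / ((y - x) * (z - x)) + b * (-1) / ((y - x) * (z - y)) +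
      c * 1 / ((z - x) * (z - y)) := by
    rw [ha, hb, hc]
    field_simp
    ring
  have e1 : q1 = a * (-(y + z)) / ((y - x) * (z - x)) + b * (x + z) / ((y - x) * (z - y)) +
      c * (-(x + y)) / ((z - x) * (z - y)) := by
    rw [ha, hb, hc]
    field_simp
    ring
  have e0 : q0 = a * (y * z) / ((y - x) * (z - x)) + b * (-(x * z)) / ((y - x) * (z - y)) +
      c * (x * y) / ((z - x) * (z - y)) := by
    rw [ha, hb, hc]
    field_simp
    ring
  have e3 : 6 * ε / δ ^ 2 = 2 * ε / δ ^ 2 + 2 * ε / δ ^ 2 + 2 * ε / δ ^ 2 := by ring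
  have sum3 : ∀ u v w : ℝ, |u| ≤ 2 * ε / δ ^ 2 → |v| ≤ 2 * ε / δ ^ 2 → |w| ≤ 2 * ε / δ ^ 2 →
      |u + v + w| ≤ 6 * ε / δ ^ 2 := by
    intro u v w hu hv hw
    rw [e3]
    exact (abs_add_three u v w).trans (by linarith)
  have hs : ∀ u v : ℝ, |u| ≤ 1 → |v| ≤ 1 → |u + v| ≤ 2 := fun u v hu hv =>
    (abs_add_le u v).trans (by linarith)
  have hm : ∀ u v : ℝ, |u| ≤ 1 → |v| ≤ 1 → |u * v| ≤ 2 := by
    intro u v hu hv
    rw [abs_mul]
    nlinarith [abs_nonneg u, abs_nonneg v]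
  refine ⟨?_, ?_, ?_⟩
  · rw [e0]
    exact sum3 _ _ _ (term _ _ _ _ h1 hxy hxz (hm _ _ hy hz))
      (term _ _ _ _ h2 hxy hyz (by rw [abs_neg]; exact hm _ _ hx hz))
      (term _ _ _ _ h3 hxz hyz (hm _ _ hx hy))
  · rw [e1]
    exact sum3 _ _ _ (term _ _ _ _ h1 hxy hxz (by rw [abs_neg]; exact hs _ _ hy hz))
      (term _ _ _ _ h2 hxy hyz (hs _ _ hx hz))
      (term _ _ _ _ h3 hxz hyz (by rw [abs_neg]; exact hs _ _ hx hy))
  · rw [e2]
    exact sum3 _ _ _ (term _ _ _ _ h1 hxy hxz (by norm_num))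
      (term _ _ _ _ h2 hxy hyz (by norm_num))
      (term _ _ _ _ h3 hxz hyz (by norm_num))

/-- **A quadratic polynomial which is not small is small on two short intervals only.** -/
theorem quad_two {q0 q1 q2 ε δ M : ℝ} (hε : 0 ≤ ε) (hδ : 0 < δ)
    (hM : M ≤ |q0| ∨ M ≤ |q1| ∨ M ≤ |q2|) (hεM : 6 * ε < M * δ ^ 2) :
    ∃ r₁ r₂ : ℝ, ∀ v : ℝ, |v| ≤ 1 → |q0 + q1 * v + q2 * v ^ 2| ≤ ε →
      |v - r₁| ≤ δ ∨ |v - r₂| ≤ δ := by
  by_cases hx : ∃ x : ℝ, |x| ≤ 1 ∧ |q0 + q1 * x + q2 * x ^ 2| ≤ ε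
  · obtain ⟨x, hx1, hx2⟩ := hx
    by_cases hy : ∃ y : ℝ, |y| ≤ 1 ∧ |q0 + q1 * y + q2 * y ^ 2| ≤ ε ∧ δ < |y - x|
    · obtain ⟨y, hy1, hy2, hy3⟩ := hy
      refine ⟨x, y, fun v hv1 hv2 => ?_⟩
      by_contra hcon
      rw [not_or, not_le, not_le] at hcon
      obtain ⟨h0, h1, h2⟩ := quad_three hε hδ hx1 hy1 hv1 hy3 hcon.1 hcon.2 hx2 hy2 hv2
      have hδ2 : 0 < δ ^ 2 := by positivity
      have h3 : M ≤ 6 * ε / δ ^ 2 := by
        rcases hM with h | h | h
        · exact h.trans h0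
        · exact h.trans h1
        · exact h.trans h2
      rw [le_div_iff₀ hδ2] at h3
      linarith
    · push Not at hy
      exact ⟨x, x, fun v hv1 hv2 => Or.inl (hy v hv1 hv2)⟩
  · push Not at hx
    exact ⟨0, 0, fun v hv1 hv2 => absurd hv2 (not_le.2 (hx v hv1))⟩

end Pool.PZ.Zrt
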